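import Mathlib
import Pool.Agent.N183.U8.StmI
import Pool.Agent.R915.G6

/-!
# Project GS (helper183, MP_09799c_ag): the classes are stable under isogenies, I1
-/

namespace Pool.Agent.N615.GSI1

open Module Pool.Agent.Y90 Pool.Agent.R915 TensorProduct Polynomial
open Pool.Agent.N183.TS (RealOdd)
open Pool.Agent.N183.U5 (MaxField CopMult QuadThree)
open Pool.Agent.N183.U6 (GalMultTwo)
open Pool.Agent.N183.U8

/-- The tangent map of an isomorphism. -/
theorem tangent {X Y : AV} (e : X.H ≃ₗ[ℚ] Y.H) (he : IsHom X Y e.toLinearMap) :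
    ∃ E : X.T ≃ₗ[ℂ] Y.T, (∀ v, E (X.per v) = Y.per (e v)) ∧
      ∀ w, E.symm (Y.per w) = X.per (e.symm w) := by
  obtain ⟨Φ, hΦ⟩ := he
  have h5 : Function.Surjective Φ := tan_surj hΦ e.surjective
  have h6 : finrank ℂ X.T = finrank ℂ Y.T := by
    have h3 := e.finrank_eq
    rw [X.rank, Y.rank] at h3
    omega
  have h7 : Function.Injective Φ := (LinearMap.injective_iff_surjective_of_finrank_eq_finrank h6).2 h5
  let E : X.T ≃ₗ[ℂ] Y.T := LinearEquiv.ofBijective Φ ⟨h7, h5⟩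
  have hE : ∀ v, E (X.per v) = Y.per (e v) := fun v => hΦ v
  have hEs : ∀ w, E.symm (Y.per w) = X.per (e.symm w) := fun w => by
    rw [LinearEquiv.symm_apply_eq, hE, e.apply_symm_apply]
  exact ⟨E, hE, hEs⟩

/-- Conjugation of the endomorphisms. -/
noncomputable def cj {X Y : AV} (e : X.H ≃ₗ[ℚ] Y.H) : Module.End ℚ Y.H ≃ₐ[ℚ] Module.End ℚ X.H :=
  e.symm.conjAlgEquiv ℚ

theorem cj_apply {X Y : AV} (e : X.H ≃ₗ[ℚ] Y.H) (a : Module.End ℚ Y.H) (v : X.H) :
    cj e a v = e.symm (a (e v)) := rfl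

theorem cj_symm_apply {X Y : AV} (e : X.H ≃ₗ[ℚ] Y.H) (a : Module.End ℚ X.H) (v : Y.H) :
    (cj e).symm a v = e (a (e.symm v)) := rfl

theorem cj_hom {X Y : AV} (e : X.H ≃ₗ[ℚ] Y.H) (he : IsHom X Y e.toLinearMap)
    (hes : IsHom Y X e.symm.toLinearMap) {a : Module.End ℚ Y.H} (ha : IsHom Y Y a) :
    IsHom X X (cj e a) := by
  have h4 : cj e a = e.symm.toLinearMap.comp (a.comp e.toLinearMap) := LinearMap.ext fun _ => rfl
  rw [h4]
  exact IsHom.comp' hes (IsHom.comp' ha he)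

theorem cj_symm_hom {X Y : AV} (e : X.H ≃ₗ[ℚ] Y.H) (he : IsHom X Y e.toLinearMap)
    (hes : IsHom Y X e.symm.toLinearMap) {a : Module.End ℚ X.H} (ha : IsHom X X a) :
    IsHom Y Y ((cj e).symm a) := by
  have h4 : (cj e).symm a = e.toLinearMap.comp (a.comp e.symm.toLinearMap) :=
    LinearMap.ext fun _ => rfl
  rw [h4]
  exact IsHom.comp' he (IsHom.comp' ha hes)

theorem cj_minpoly {X Y : AV} (e : X.H ≃ₗ[ℚ] Y.H) (a : Module.End ℚ Y.H) :
    minpoly ℚ (cj e a) = minpoly ℚ a := minpoly.algEquiv_eq (cj e) a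

theorem maxField {X Y : AV} (e : X.H ≃ₗ[ℚ] Y.H) (he : IsHom X Y e.toLinearMap)
    (hes : IsHom Y X e.symm.toLinearMap) {a : Module.End ℚ Y.H} (ha : MaxField Y a) :
    MaxField X (cj e a) := by
  refine ⟨cj_hom e he hes ha.1, fun b hb hab => ?_⟩
  have h1 : (cj e).symm b ∈ Algebra.adjoin ℚ {a} := by
    refine ha.2 _ (cj_symm_hom e he hes hb) ?_
    apply (cj e).injective
    rw [map_mul, map_mul, AlgEquiv.apply_symm_apply, hab]
  have h2 : (cj e : Module.End ℚ Y.H →ₐ[ℚ] Module.End ℚ X.H) ((cj e).symm b) ∈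
      (Algebra.adjoin ℚ {a}).map (cj e : Module.End ℚ Y.H →ₐ[ℚ] Module.End ℚ X.H) :=
    Subalgebra.mem_map.2 ⟨_, h1, rfl⟩
  rw [AlgHom.map_adjoin, Set.image_singleton] at h2
  have h3 : (cj e : Module.End ℚ Y.H →ₐ[ℚ] Module.End ℚ X.H) ((cj e).symm b) = b :=
    (cj e).apply_symm_apply b
  rw [h3] at h2
  exact h2

theorem realMax {X Y : AV} (e : X.H ≃ₗ[ℚ] Y.H) (he : IsHom X Y e.toLinearMap)
    (hes : IsHom Y X e.symm.toLinearMap) {a : Module.End ℚ Y.H} (ha : RealMax Y a) :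
    RealMax X (cj e a) := by
  have h1 := maxField e he hes (a := a) ⟨ha.1, ha.2.2⟩
  refine ⟨h1.1, fun z hz => ?_, h1.2⟩
  rw [cj_minpoly] at hz
  exact ha.2.1 z hz

/-- The eigenspaces of a conjugate. -/
theorem eigen_finrank {T T' : Type} [AddCommGroup T] [Module ℂ T] [AddCommGroup T'] [Module ℂ T']
    (E : T ≃ₗ[ℂ] T') (Ψ : Module.End ℂ T') (s : ℂ) :
    Module.End.eigenspace (E.symm.toLinearMap.comp (Ψ.comp E.toLinearMap) : Module.End ℂ T) s =
      (Module.End.eigenspace Ψ s).comap E.toLinearMap := by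
  ext x
  rw [Submodule.mem_comap, Module.End.mem_eigenspace_iff, Module.End.mem_eigenspace_iff]
  change E.symm (Ψ (E x)) = s • x ↔ Ψ (E x) = s • E x
  rw [LinearEquiv.symm_apply_eq, map_smul]

theorem comap_finrank {T T' : Type} [AddCommGroup T] [Module ℂ T] [AddCommGroup T'] [Module ℂ T']
    (E : T ≃ₗ[ℂ] T') (W : Submodule ℂ T') :
    finrank ℂ (W.comap E.toLinearMap) = finrank ℂ W := by
  exact (Submodule.comap_equiv_eq_map_symm E _).symm ▸ LinearEquiv.finrank_map_eq E.symm W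

theorem I1 : S_I1 := by
  intro X Y e he hes
  obtain ⟨E, hE, hEs⟩ := tangent e he
  have hper : ∀ (a : Module.End ℚ Y.H) (Ψ : Y.T →ₗ[ℂ] Y.T), (∀ v, Ψ (Y.per v) = Y.per (a v)) →
      ∀ v, (E.symm.toLinearMap.comp (Ψ.comp E.toLinearMap)) (X.per v) = X.per (cj e a v) := by
    intro a Ψ h v
    change E.symm (Ψ (E (X.per v))) = X.per (e.symm (a (e v)))
    rw [hE, h, hEs]
  refine ⟨?_, ?_, ?_, ?_, ?_⟩
  · rintro ⟨a, ha, h1⟩
    refine ⟨cj e a, realMax e he hes ha, ?_⟩
    rw [cj_minpoly, e.finrank_eq]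
    exact h1
  · rintro ⟨a, ha⟩
    exact ⟨cj e a, realMax e he hes ha⟩
  · rintro ⟨a, Ψ, ha, h1, h2, h3⟩
    refine ⟨cj e a, E.symm.toLinearMap.comp (Ψ.comp E.toLinearMap), maxField e he hes ha,
      hper a Ψ h1, fun s hs => ?_, ?_⟩
    · rw [cj_minpoly] at hs
      have h4 := h2 s hs
      rw [eigen_finrank]
      intro h5
      apply h4
      rw [Submodule.eq_bot_iff] at h5 ⊢
      intro x hx
      have h6 : E.symm x ∈ (Module.End.eigenspace Ψ s).comap E.toLinearMap := by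
        rw [Submodule.mem_comap]
        change E (E.symm x) ∈ _
        rw [E.apply_symm_apply]
        exact hx
      have h7 := h5 _ h6
      have h8 := congrArg E h7
      rw [E.apply_symm_apply, map_zero] at h8
      exact h8
    · rw [cj_minpoly, e.finrank_eq]
      rcases h3 with h3 | ⟨s, h3, h4⟩
      · exact Or.inl h3
      · refine Or.inr ⟨s, ?_, ?_⟩
        · rw [eigen_finrank, comap_finrank]
          exact h3
        · rw [eigen_finrank, comap_finrank]
          exact h4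
  · rintro ⟨d, h, hq, Ψ, h1, h2⟩
    refine ⟨d, cj e h, ⟨hq.pos, cj_hom e he hes hq.hom, fun w => ?_, fun g hg => ?_⟩,
      E.symm.toLinearMap.comp (Ψ.comp E.toLinearMap), hper h Ψ h1, fun s hs => ?_⟩
    · change e.symm (h (e (e.symm (h (e w))))) = -(d • w)
      rw [e.apply_symm_apply, hq.sq, map_neg, map_smul, e.symm_apply_apply]
    · obtain ⟨a, b, hab⟩ := hq.max _ (cj_symm_hom e he hes hg)
      refine ⟨a, b, ?_⟩
      have h3 := congrArg (cj e) hab
      rw [AlgEquiv.apply_symm_apply] at h3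
      rw [h3]
      refine LinearMap.ext fun v => ?_
      change e.symm (a • (e v) + b • h (e v)) = a • v + b • e.symm (h (e v))
      rw [map_add, map_smul, map_smul, e.symm_apply_apply]
    · have h8 : LinearMap.ker ((E.symm.toLinearMap.comp (Ψ.comp E.toLinearMap)) -
          s • LinearMap.id) = (LinearMap.ker (Ψ - s • LinearMap.id)).comap E.toLinearMap := by
        ext x
        rw [LinearMap.mem_ker, Submodule.mem_comap, LinearMap.mem_ker, LinearMap.sub_apply,
          LinearMap.sub_apply, LinearMap.comp_apply, LinearMap.comp_apply, LinearMap.smul_apply,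
          LinearMap.smul_apply, LinearMap.id_apply, LinearMap.id_apply, sub_eq_zero, sub_eq_zero]
        change E.symm (Ψ (E x)) = s • x ↔ Ψ (E x) = s • E x
        rw [LinearEquiv.symm_apply_eq, map_smul]
      rw [h8, comap_finrank]
      exact h2 s hs
  · rintro ⟨a, Ψ, ha, h1, s, hs, h2⟩
    refine ⟨cj e a, E.symm.toLinearMap.comp (Ψ.comp E.toLinearMap), maxField e he hes ha,
      hper a Ψ h1, s, ?_, ?_⟩
    · rw [cj_minpoly]
      exact hs
    · rw [cj_minpoly, e.finrank_eq, eigen_finrank, comap_finrank]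
      exact h2

end Pool.Agent.N615.GSI1
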