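import Mathlib
import Pool.Agent.N615.GSI1

/-!
# Project GS (helper183, MP_09799c_ag): the class `GalMultTwo` is stable under isogenies, I2
-/

set_option linter.unusedSectionVars false

namespace Pool.Agent.N615.GSI2

open Module Pool.Agent.Y90 Pool.Agent.R915 TensorProduct Polynomial
open Pool.Agent.N183.U5
open Pool.Agent.N183.U6
open Pool.Agent.N183.U8
open Pool.Agent.N615.GSI1

section conj

variable {V V' : Type} [AddCommGroup V] [Module ℂ V] [AddCommGroup V'] [Module ℂ V']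

/-- Conjugation by an isomorphism. -/
def cjg (f : V ≃ₗ[ℂ] V') (t : Module.End ℂ V') : Module.End ℂ V :=
  f.symm.toLinearMap.comp (t.comp f.toLinearMap)

theorem cjg_apply (f : V ≃ₗ[ℂ] V') (t : Module.End ℂ V') (v : V) :
    cjg f t v = f.symm (t (f v)) := rfl

theorem mem_W {f : V ≃ₗ[ℂ] V'} {W : Submodule ℂ V'} {v : V} :
    v ∈ W.map (f.symm : V' →ₗ[ℂ] V) ↔ f v ∈ W := by
  rw [Submodule.mem_map_equiv, LinearEquiv.symm_symm]

theorem isPseudo (f : V ≃ₗ[ℂ] V') {t : Module.End ℂ V'} {W : Submodule ℂ V'}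
    (h : IsPseudo t W) : IsPseudo (cjg f t) (W.map (f.symm : V' →ₗ[ℂ] V)) := by
  refine ⟨fun w hw => ?_, ?_⟩
  · rw [mem_W] at hw
    obtain ⟨h1, h2⟩ := h.1 _ hw
    refine ⟨?_, fun h0 => ?_⟩
    · rw [mem_W, cjg_apply, f.apply_symm_apply]
      exact h1
    · rw [cjg_apply, LinearEquiv.map_eq_zero_iff] at h0
      have h3 := h2 h0
      rwa [LinearEquiv.map_eq_zero_iff] at h3
  · have h1 : (W.map (f.symm : V' →ₗ[ℂ] V)).map (cjg f t - 1) =
        (W.map (t - 1)).map (f.symm : V' →ₗ[ℂ] V) := by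
      rw [← Submodule.map_comp, ← Submodule.map_comp]
      congr 1
      refine LinearMap.ext fun v => ?_
      change f.symm (t (f (f.symm v))) - f.symm v = f.symm (t v - v)
      rw [f.apply_symm_apply, map_sub]
    rw [h1, LinearEquiv.finrank_map_eq]
    exact h.2

theorem isComb (f : V ≃ₗ[ℂ] V') {s : Module.End ℂ V'} {m : ℕ} {t t' : Fin m → Module.End ℂ V'}
    {W : Submodule ℂ V'} (h : IsComb s t t' W) :
    IsComb (cjg f s) (fun i => cjg f (t i)) (fun i => cjg f (t' i))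
      (W.map (f.symm : V' →ₗ[ℂ] V)) := by
  obtain ⟨c, hc⟩ := h
  refine ⟨c, fun φ hφ w hw => ?_⟩
  have h1 : ∀ w ∈ W, (cjg f.symm φ) w ∈ W := by
    intro w hw
    have h2 : f.symm w ∈ W.map (f.symm : V' →ₗ[ℂ] V) := by
      rw [mem_W, f.apply_symm_apply]
      exact hw
    have h3 := hφ _ h2
    rw [mem_W] at h3
    exact h3
  have h4 := hc (cjg f.symm φ) h1 (f w) (mem_W.1 hw)
  have h5 : ∀ x, cjg f.symm φ x = f (φ (f.symm x)) := fun x => rfl
  rw [h5, f.symm_apply_apply] at h4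
  rw [cjg_apply, h4, map_sum]
  refine Finset.sum_congr rfl fun i _ => ?_
  rw [map_smul, h5]
  change c i • f.symm (t i (f (φ (f.symm (t' i (s (f w))))))) =
    c i • f.symm (t i (f (φ (f.symm (t' i (f (f.symm (s (f w)))))))))
  rw [f.apply_symm_apply]

theorem twoClasses (f : V ≃ₗ[ℂ] V') {t : Module.End ℂ V'} {W : Submodule ℂ V'}
    (h : TwoClasses t W) : TwoClasses (cjg f t) (W.map (f.symm : V' →ₗ[ℂ] V)) := by
  obtain ⟨n, w, α, A, iA, v, c, c', h1, h2, h3, h4, h5, h6⟩ := h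
  refine ⟨n, w.map (f.symm.submoduleMap W), α, A, iA, v, c, c', fun i => ?_, h2, h3, h4, h5, h6⟩
  have h7 : ((w.map (f.symm.submoduleMap W) i : W.map (f.symm : V' →ₗ[ℂ] V)) : V) =
      f.symm (w i : V') := by
    rw [Basis.map_apply]
    rfl
  rw [h7, cjg_apply, f.apply_symm_apply, h1, map_smul]

end conj

section bc

variable {K : Type} [Field K] [CharZero K] [Algebra K ℂ] {Γ : Type} [Group Γ]

variable (K) in
/-- Base change of the isomorphism. -/
noncomputable def eK {X Y : AV} (e : X.H ≃ₗ[ℚ] Y.H) : (K ⊗[ℚ] X.H) ≃ₗ[K] (K ⊗[ℚ] Y.H) :=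
  LinearEquiv.ofLinearMap (e.toLinearMap.baseChange K) (e.symm.toLinearMap.baseChange K)
    (by rw [← LinearMap.baseChange_comp, LinearEquiv.comp_symm, LinearMap.baseChange_id])
    (by rw [← LinearMap.baseChange_comp, LinearEquiv.symm_comp, LinearMap.baseChange_id])

/-- Base change of the isomorphism. -/
noncomputable def eC {M N : Type} [AddCommGroup M] [Module K M] [AddCommGroup N] [Module K N]
    (e : M ≃ₗ[K] N) : (ℂ ⊗[K] M) ≃ₗ[ℂ] (ℂ ⊗[K] N) :=
  LinearEquiv.ofLinearMap (e.toLinearMap.baseChange ℂ) (e.symm.toLinearMap.baseChange ℂ)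
    (by rw [← LinearMap.baseChange_comp, LinearEquiv.comp_symm, LinearMap.baseChange_id])
    (by rw [← LinearMap.baseChange_comp, LinearEquiv.symm_comp, LinearMap.baseChange_id])

/-- Conjugation over `K`. -/
noncomputable def cK {M N : Type} [AddCommGroup M] [Module K M] [AddCommGroup N] [Module K N]
    (e : M ≃ₗ[K] N) (t : Module.End K N) : Module.End K M :=
  e.symm.toLinearMap.comp (t.comp e.toLinearMap)

theorem cK_baseChange {M N : Type} [AddCommGroup M] [Module K M] [AddCommGroup N] [Module K N]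
    (e : M ≃ₗ[K] N) (t : Module.End K N) :
    (cK e t).baseChange ℂ = cjg (eC e) (t.baseChange ℂ) := by
  unfold cK
  rw [LinearMap.baseChange_comp, LinearMap.baseChange_comp]
  rfl

theorem cj_baseChange {X Y : AV} (e : X.H ≃ₗ[ℚ] Y.H) (a : Module.End ℚ Y.H) :
    (cj e a).baseChange K = cK (eK K e) (a.baseChange K) := by
  have h4 : cj e a = e.symm.toLinearMap.comp (a.comp e.toLinearMap) := LinearMap.ext fun _ => rfl
  rw [h4, LinearMap.baseChange_comp, LinearMap.baseChange_comp]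
  rfl

theorem VS_cj {X Y : AV} (e : X.H ≃ₗ[ℚ] Y.H) (a : Module.End ℚ Y.H) (s : ℂ) :
    VS K X (cj e a) s = (VS K Y a s).map ((eC (eK K e)).symm : _ →ₗ[ℂ] _) := by
  ext x
  rw [mem_W]
  unfold VS
  rw [Module.End.mem_eigenspace_iff, Module.End.mem_eigenspace_iff, cj_baseChange, cK_baseChange,
    cjg_apply, LinearEquiv.symm_apply_eq, map_smul]

theorem actsBy {X Y Y' : AV} (ρ : Representation K Γ (K ⊗[ℚ] X.H)) (e : Y.H ≃ₗ[ℚ] Y'.H)
    (hes : IsHom Y' Y e.symm.toLinearMap) {γ : Γ} {t : Module.End K (K ⊗[ℚ] Y'.H)}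
    (h : ActsBy X ρ Y' γ t) : ActsBy X ρ Y γ (cK (eK K e) t) := by
  refine ⟨h.1, fun i hi v => ?_⟩
  have h1 : IsHom Y' X (i.comp e.symm.toLinearMap) := IsHom.comp' (X := Y') (Y := Y) (W := X) hi hes
  have h2 := h.2 (i.comp e.symm.toLinearMap) h1 (eK K e v)
  rw [LinearMap.baseChange_comp, LinearMap.comp_apply, LinearMap.comp_apply] at h2
  have h3 : (e.symm.toLinearMap.baseChange K) (eK K e v) = v := (eK K e).symm_apply_apply v
  rw [h3] at h2
  exact h2

theorem typeFour {X Y : AV} (e : X.H ≃ₗ[ℚ] Y.H) (he : IsHom X Y e.toLinearMap)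
    (hes : IsHom Y X e.symm.toLinearMap) (h : TypeFour Y) : TypeFour X := by
  obtain ⟨z, h1, h2, h3⟩ := h
  refine ⟨cj e z, cj_hom e he hes h1, fun f hf => ?_, fun x => ?_⟩
  · apply (cj e).symm.injective
    rw [map_mul, map_mul, AlgEquiv.symm_apply_apply]
    exact h2 _ (cj_symm_hom e he hes hf)
  · rw [cj_minpoly]
    exact h3 x

theorem galRefl {X Y Y' : AV} (ρ : Representation K Γ (K ⊗[ℚ] X.H)) (e : Y.H ≃ₗ[ℚ] Y'.H)
    (he : IsHom Y Y' e.toLinearMap) (hes : IsHom Y' Y e.symm.toLinearMap)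
    {W : Submodule ℂ (ℂ ⊗[K] (K ⊗[ℚ] Y'.H))} (h : GalRefl X ρ Y' W) :
    GalRefl X ρ Y (W.map ((eC (eK K e)).symm : _ →ₗ[ℂ] _)) := by
  obtain ⟨s, m, γ, t, t', h1, h2, h3, h4⟩ := h
  refine ⟨cjg (eC (eK K e)) s, m, γ, fun i => cK (eK K e) (t i), fun i => cK (eK K e) (t' i),
    isPseudo _ h1, ?_, fun i => ⟨actsBy ρ e hes (h3 i).1, actsBy ρ e hes (h3 i).2⟩, ?_⟩
  · rcases h2 with h2 | ⟨w, hw, h2⟩
    · exact Or.inl (typeFour e he hes h2)
    · refine Or.inr ⟨(eC (eK K e)).symm w, ?_, fun h5 => h2 ?_⟩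
      · rw [mem_W, LinearEquiv.apply_symm_apply]
        exact hw
      · rw [cjg_apply, cjg_apply, LinearEquiv.apply_symm_apply, LinearEquiv.apply_symm_apply] at h5
        exact (eC (eK K e)).symm.injective h5
  · have h5 := isComb (eC (eK K e)) h4
    have h6 : (fun i => (cK (eK K e) (t i)).baseChange ℂ) =
        fun i => cjg (eC (eK K e)) ((t i).baseChange ℂ) := funext fun i => cK_baseChange _ _
    have h7 : (fun i => (cK (eK K e) (t' i)).baseChange ℂ) =
        fun i => cjg (eC (eK K e)) ((t' i).baseChange ℂ) := funext fun i => cK_baseChange _ _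
    rw [h6, h7]
    exact h5

end bc

theorem I2 : S_I2 := by
  intro K _ _ _ Γ _ X ρ Y Y' e he hes h
  obtain ⟨a, ha, h1⟩ := h
  refine ⟨cj e a, maxField e he hes ha, fun s hs => ?_⟩
  rw [cj_minpoly] at hs
  rw [VS_cj]
  rcases h1 s hs with h2 | ⟨γ, t, h2, h3⟩
  · exact Or.inl (galRefl ρ e he hes h2)
  · refine Or.inr ⟨γ, cK (eK K e) t, actsBy ρ e hes h2, ?_⟩
    rw [cK_baseChange]
    exact twoClasses _ h3

end Pool.Agent.N615.GSI2
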