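import Pool.Agent.N576.MX.Defs

/-!
# Project MX: closed formula for the values along a run (helper615 for helper576)
-/

set_option autoImplicit false

namespace Pool.Agent.N615.MXR

open Pool.Agent.H499R2 Pool.Agent.N576.MX

noncomputable section

/-! ### the constants of a run -/

/-- the constants `x`, `y` for a pivot `a` and consecutive values `b`, `c` -/
def PX (a b c : ℝ) : ℝ := kap a b c
def PY (a b c : ℝ) : ℝ := kap' a b c

/-- both formulas at the start -/
lemma start (a b c : ℝ) (ha : 1 ≤ a) :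
    b = (kap a b c + kap' a b c) / 3 ∧
    c = (kap a b c * Pool.Agent.H499R2.lam a + kap' a b c * (Pool.Agent.H499R2.lam a)⁻¹) / 3 ∧
    3 * a * b - c = (kap a b c * (Pool.Agent.H499R2.lam a)⁻¹ + kap' a b c * Pool.Agent.H499R2.lam a) / 3 := by
  have h1 := lam_sub_inv_pos a ha
  have hp := Pool.Agent.H499R2.lam_pos a ha
  have hi := Pool.Agent.H499R2.lam_inv a ha
  have hk := kap_add a b c ha
  have hxx : (Pool.Agent.H499R2.lam a)⁻¹ * Pool.Agent.H499R2.lam a = 1 := inv_mul_cancel₀ hp.ne'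
  have e2 : kap a b c * Pool.Agent.H499R2.lam a + kap' a b c * (Pool.Agent.H499R2.lam a)⁻¹ = 3 * c := by
    unfold kap kap'
    rw [div_mul_eq_mul_div, div_mul_eq_mul_div, ← add_div, div_eq_iff h1.ne']
    linear_combination (-3 * b + 3 * b) * hxx
  refine ⟨by rw [hk]; ring, by rw [e2]; ring, ?_⟩
  have e3 : kap a b c * (Pool.Agent.H499R2.lam a)⁻¹ + kap' a b c * Pool.Agent.H499R2.lam a =
      (kap a b c + kap' a b c) * (Pool.Agent.H499R2.lam a + (Pool.Agent.H499R2.lam a)⁻¹) -
        (kap a b c * Pool.Agent.H499R2.lam a + kap' a b c * (Pool.Agent.H499R2.lam a)⁻¹) := by ring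
  rw [e3, e2, hk, hi]
  ring

lemma kap'_shift {a b c : ℝ} (ha : 1 ≤ a) :
    kap' a c (3 * a * c - b) = kap' a b c * (Pool.Agent.H499R2.lam a)⁻¹ := by
  have hp := Pool.Agent.H499R2.lam_pos a ha
  have hi := Pool.Agent.H499R2.lam_inv a ha
  have hxx : Pool.Agent.H499R2.lam a * (Pool.Agent.H499R2.lam a)⁻¹ = 1 := mul_inv_cancel₀ hp.ne'
  unfold kap'
  rw [div_mul_eq_mul_div]
  congr 1
  have e : (3 * b * Pool.Agent.H499R2.lam a - 3 * c) * (Pool.Agent.H499R2.lam a)⁻¹ =
      3 * b * (Pool.Agent.H499R2.lam a * (Pool.Agent.H499R2.lam a)⁻¹) - 3 * c * (Pool.Agent.H499R2.lam a)⁻¹ := by ring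
  rw [e, hxx, hi]
  ring

/-- the closed formula for a recurrent sequence -/
lemma recur (a : ℝ) (ha : 1 ≤ a) (x y : ℝ) (w : ℕ → ℝ) (hw0 : w 0 = (x + y) / 3)
    (hw1 : w 1 = (x * Pool.Agent.H499R2.lam a + y * (Pool.Agent.H499R2.lam a)⁻¹) / 3)
    (hrec : ∀ m, w (m + 2) = 3 * a * w (m + 1) - w m) (m : ℕ) :
    w m = (x * Pool.Agent.H499R2.lam a ^ m + y * (Pool.Agent.H499R2.lam a)⁻¹ ^ m) / 3 := by
  have hp := Pool.Agent.H499R2.lam_pos a ha
  have hi := Pool.Agent.H499R2.lam_inv a ha
  have hq := Pool.Agent.H499R2.lam_quad a ha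
  set l := Pool.Agent.H499R2.lam a with hl
  have h2 : l ^ 2 = 3 * a * l - 1 := by linarith
  have h3 : l⁻¹ ^ 2 = 3 * a * l⁻¹ - 1 := by
    have hxx : l⁻¹ * l = 1 := inv_mul_cancel₀ hp.ne'
    have : l⁻¹ * (l + l⁻¹) = l⁻¹ * (3 * a) := by
      rw [hi]
      ring
    rw [mul_add, hxx] at this
    linarith
  have key : ∀ m, w m = (x * l ^ m + y * l⁻¹ ^ m) / 3 ∧ w (m + 1) = (x * l ^ (m + 1) + y * l⁻¹ ^ (m + 1)) / 3 := by
    intro m
    induction m with
    | zero => exact ⟨by simpa using hw0, by simpa using hw1⟩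
    | succ m ih =>
      refine ⟨ih.2, ?_⟩
      rw [hrec m, ih.1, ih.2]
      have e1 : l ^ (m + 1 + 1) = l ^ m * l ^ 2 := by ring
      have e2 : l⁻¹ ^ (m + 1 + 1) = l⁻¹ ^ m * l⁻¹ ^ 2 := by ring
      rw [e1, e2, h2, h3, pow_succ l m, pow_succ l⁻¹ m]
      ring
  exact (key m).1

/-! ### the tree -/

lemma lam_eq (u : ℤ) : Pool.Agent.N576.MX.lam u = Pool.Agent.H499R2.lam (u : ℝ) := rfl

/-- the value of the moving region at the start, and the next one -/
def w0 (c : Bool) (X : Nd) : ℤ := if c then X.b else X.a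

def pv (c : Bool) (X : Nd) : ℤ := if c then X.a else X.b

lemma piv_eq (g : List Bool) (c : Bool) : piv g c = pv c (desc root g) := rfl

lemma MTc {X : Nd} (h : Valid X) (c : Bool) : MT (pv c X : ℝ) (w0 c X) X.c := by
  unfold pv w0
  cases c
  · simp only [Bool.false_eq_true, if_false]
    exact h.mt.swap
  · simp only [if_true]
    exact h.mt

lemma pv_step (c : Bool) (X : Nd) : pv c (step X c) = pv c X := by
  cases c <;> rfl

lemma w0_step (c : Bool) (X : Nd) : w0 c (step X c) = X.c := by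
  cases c <;> rfl

lemma c_step (c : Bool) (X : Nd) : (step X c).c = 3 * pv c X * X.c - w0 c X := by
  cases c <;> rfl

lemma pv_step' (c : Bool) (X : Nd) : pv c (step X (!c)) = X.c := by
  cases c <;> rfl

lemma w0_step' (c : Bool) (X : Nd) : w0 c (step X (!c)) = w0 c X := by
  cases c <;> rfl

lemma c_step' (c : Bool) (X : Nd) : (step X (!c)).c = 3 * w0 c X * X.c - pv c X := by
  cases c <;> rfl

lemma rn_succ (g : List Bool) (c : Bool) (m : ℕ) : rn g c (m + 1) = rn g c m ++ [c] := by
  unfold rn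
  rw [List.replicate_succ', List.append_assoc]

lemma rn_zero (g : List Bool) (c : Bool) : rn g c 0 = g := by
  unfold rn
  simp

lemma desc_rn_succ (g : List Bool) (c : Bool) (m : ℕ) :
    desc root (rn g c (m + 1)) = step (desc root (rn g c m)) c := by
  rw [rn_succ, desc_snoc]

lemma pv_rn (g : List Bool) (c : Bool) (m : ℕ) : pv c (desc root (rn g c m)) = piv g c := by
  induction m with
  | zero => rw [rn_zero]; rfl
  | succ m ih => rw [desc_rn_succ, pv_step, ih]

lemma wv_eq (g : List Bool) (c : Bool) (m : ℕ) : wv g c m = w0 c (desc root (rn g c m)) := rfl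

lemma wv_succ (g : List Bool) (c : Bool) (m : ℕ) : wv g c (m + 1) = (desc root (rn g c m)).c := by
  rw [wv_eq, desc_rn_succ, w0_step]

lemma c_succ (g : List Bool) (c : Bool) (m : ℕ) : (desc root (rn g c (m + 1))).c =
    3 * piv g c * (desc root (rn g c m)).c - wv g c m := by
  rw [desc_rn_succ, c_step, pv_rn, wv_eq]

lemma wv_rec (g : List Bool) (c : Bool) (m : ℕ) : wv g c (m + 2) = 3 * piv g c * wv g c (m + 1) - wv g c m := by
  rw [wv_succ, wv_succ, c_succ]

/-- pairwise coprime values -/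
def PC (X : Nd) : Prop := IsCoprime X.a X.b ∧ IsCoprime X.a X.c ∧ IsCoprime X.b X.c

lemma cop_step {a b c : ℤ} (h : IsCoprime a b) : IsCoprime a (3 * a * c - b) := by
  obtain ⟨u, v, huv⟩ := h
  exact ⟨u + 3 * c * v, -v, by linear_combination huv⟩

lemma cop_step' {a b c : ℤ} (h : IsCoprime c b) : IsCoprime c (3 * a * c - b) := by
  obtain ⟨u, v, huv⟩ := h
  exact ⟨u + 3 * a * v, -v, by linear_combination huv⟩

lemma pc_desc (l : List Bool) : PC (desc root l) := by
  induction l using List.reverseRecOn with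
  | nil =>
    refine ⟨?_, ?_, ?_⟩
    · exact ⟨1, 0, by simp [desc, root]⟩
    · exact ⟨1, 0, by simp [desc, root]⟩
    · exact ⟨-2, 1, by simp [desc, root]⟩
  | append_singleton l b ih =>
    obtain ⟨h1, h2, h3⟩ := ih
    rw [desc_snoc]
    cases b
    · refine ⟨h3.symm, cop_step' h2.symm, cop_step h1.symm⟩
    · exact ⟨h2, cop_step h1, cop_step' h3.symm⟩

lemma main_ind (g : List Bool) (c : Bool) : ∃ (k : ℕ) (A B : ℤ), 1 ≤ A ∧ A ≤ piv g c ∧ 1 ≤ B ∧ B ≤ piv g c ∧
    A ^ 2 + B ^ 2 + (piv g c) ^ 2 = 3 * piv g c * A * B ∧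
    IsCoprime A (piv g c) ∧ IsCoprime B (piv g c) ∧ IsCoprime A B ∧
    (A : ℝ) = (kap (piv g c) (w0 c (desc root g)) (desc root g).c * (Pool.Agent.N576.MX.lam (piv g c))⁻¹ ^ (k + 1) +
      kap' (piv g c) (w0 c (desc root g)) (desc root g).c * Pool.Agent.N576.MX.lam (piv g c) ^ (k + 1)) / 3 ∧
    (B : ℝ) = (kap (piv g c) (w0 c (desc root g)) (desc root g).c * (Pool.Agent.N576.MX.lam (piv g c))⁻¹ ^ k +
      kap' (piv g c) (w0 c (desc root g)) (desc root g).c * Pool.Agent.N576.MX.lam (piv g c) ^ k) / 3 := by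
  induction g using List.reverseRecOn with
  | nil =>
    cases c
    · -- pivot 2
      have hpv : piv [] false = 2 := rfl
      have hw : w0 false (desc root []) = 1 := rfl
      have hcc : (desc root []).c = 5 := rfl
      rw [hpv, hw, hcc]
      obtain ⟨s1, s2, s3⟩ := start ((2 : ℤ) : ℝ) ((1 : ℤ) : ℝ) ((5 : ℤ) : ℝ) (by norm_num)
      refine ⟨0, 1, 1, by norm_num, by norm_num, by norm_num, by norm_num, by norm_num, isCoprime_one_left,
        isCoprime_one_left, isCoprime_one_left, ?_, ?_⟩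
      · rw [lam_eq, zero_add, pow_one, pow_one, ← s3]
        norm_num
      · rw [pow_zero, pow_zero, mul_one, mul_one, ← s1]
    · have hpv : piv [] true = 1 := rfl
      have hw : w0 true (desc root []) = 2 := rfl
      have hcc : (desc root []).c = 5 := rfl
      rw [hpv, hw, hcc]
      obtain ⟨s1, s2, s3⟩ := start ((1 : ℤ) : ℝ) ((2 : ℤ) : ℝ) ((5 : ℤ) : ℝ) (by norm_num)
      refine ⟨1, 1, 1, by norm_num, by norm_num, by norm_num, by norm_num, by norm_num, isCoprime_one_left,
        isCoprime_one_left, isCoprime_one_left, ?_, ?_⟩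
      · rw [lam_eq]
        have hp := Pool.Agent.H499R2.lam_pos ((1 : ℤ) : ℝ) (by norm_num)
        have hi := Pool.Agent.H499R2.lam_inv ((1 : ℤ) : ℝ) (by norm_num)
        have hq := Pool.Agent.H499R2.lam_quad ((1 : ℤ) : ℝ) (by norm_num)
        set l := Pool.Agent.H499R2.lam ((1 : ℤ) : ℝ) with hl
        set x := kap ((1 : ℤ) : ℝ) ((2 : ℤ) : ℝ) ((5 : ℤ) : ℝ)
        set y := kap' ((1 : ℤ) : ℝ) ((2 : ℤ) : ℝ) ((5 : ℤ) : ℝ)
        push_cast at hi hq s1 s3 ⊢
        have h2 : l ^ 2 = 3 * l - 1 := by linarith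
        have h3 : l⁻¹ ^ 2 = 3 * l⁻¹ - 1 := by
          rw [hi]
          linarith [h2, hq, mul_comm l 3, show (3 * 1 - l) ^ 2 = 9 - 6 * l + l ^ 2 by ring]
        rw [h2, h3]
        have e : (x * (3 * l⁻¹ - 1) + y * (3 * l - 1)) / 3 = 3 * ((x * l⁻¹ + y * l) / 3) - (x + y) / 3 := by ring
        rw [e, ← s3, ← s1]
        norm_num
      · rw [lam_eq, pow_one, pow_one, ← s3]
        norm_num
  | append_singleton g d ih =>
    have hv := valid_root.desc g
    have hM := MTc hv c
    by_cases hd : d = c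
    · subst hd
      obtain ⟨k, A, B, h1, h2, h3, h4, h5, h6, h7, h8, h9, h10⟩ := ih
      have hpv : piv (g ++ [d]) d = piv g d := by
        rw [piv_eq, piv_eq, desc_snoc, pv_step]
      have hw : w0 d (desc root (g ++ [d])) = (desc root g).c := by
        rw [desc_snoc, w0_step]
      have hcc : (desc root (g ++ [d])).c = 3 * piv g d * (desc root g).c - w0 d (desc root g) := by
        rw [desc_snoc, c_step, piv_eq]
      have ha : (1 : ℝ) ≤ (piv g d : ℝ) := by
        rw [piv_eq]
        exact hM.ha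
      have hk : kap (piv g d : ℝ) ((desc root g).c : ℝ) ((3 * piv g d * (desc root g).c - w0 d (desc root g) : ℤ) : ℝ) =
          kap (piv g d) (w0 d (desc root g)) (desc root g).c * Pool.Agent.H499R2.lam (piv g d) := by
        push_cast
        exact kap_shift ha
      have hk' : kap' (piv g d : ℝ) ((desc root g).c : ℝ) ((3 * piv g d * (desc root g).c - w0 d (desc root g) : ℤ) : ℝ) =
          kap' (piv g d) (w0 d (desc root g)) (desc root g).c * (Pool.Agent.H499R2.lam (piv g d))⁻¹ := by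
        push_cast
        exact kap'_shift ha
      have hp := Pool.Agent.H499R2.lam_pos (piv g d : ℝ) ha
      have hxx : Pool.Agent.H499R2.lam (piv g d : ℝ) * (Pool.Agent.H499R2.lam (piv g d : ℝ))⁻¹ = 1 :=
        mul_inv_cancel₀ hp.ne'
      rw [hpv, hw, hcc, hk, hk']
      rw [lam_eq] at h9 h10 ⊢
      refine ⟨k + 1, A, B, h1, h2, h3, h4, h5, h6, h7, h8, ?_, ?_⟩
      · rw [h9]
        congr 1
        rw [pow_succ (Pool.Agent.H499R2.lam (piv g d : ℝ))⁻¹ (k + 1), pow_succ (Pool.Agent.H499R2.lam (piv g d : ℝ)) (k + 1)]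
        linear_combination (-(kap (piv g d : ℝ) (w0 d (desc root g)) (desc root g).c *
          (Pool.Agent.H499R2.lam (piv g d : ℝ))⁻¹ ^ (k + 1)) -
          kap' (piv g d : ℝ) (w0 d (desc root g)) (desc root g).c * (Pool.Agent.H499R2.lam (piv g d : ℝ)) ^ (k + 1)) * hxx
      · rw [h10]
        congr 1
        rw [pow_succ (Pool.Agent.H499R2.lam (piv g d : ℝ))⁻¹ k, pow_succ (Pool.Agent.H499R2.lam (piv g d : ℝ)) k]
        linear_combination (-(kap (piv g d : ℝ) (w0 d (desc root g)) (desc root g).c *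
          (Pool.Agent.H499R2.lam (piv g d : ℝ))⁻¹ ^ k) -
          kap' (piv g d : ℝ) (w0 d (desc root g)) (desc root g).c * (Pool.Agent.H499R2.lam (piv g d : ℝ)) ^ k) * hxx
    · have hd' : d = !c := by
        cases d <;> cases c <;> simp_all
      subst hd'
      have hpv : piv (g ++ [!c]) c = (desc root g).c := by
        rw [piv_eq, desc_snoc, pv_step']
      have hw : w0 c (desc root (g ++ [!c])) = w0 c (desc root g) := by
        rw [desc_snoc, w0_step']
      have hcc : (desc root (g ++ [!c])).c = 3 * w0 c (desc root g) * (desc root g).c - pv c (desc root g) := by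
        rw [desc_snoc, c_step']
      rw [hpv, hw, hcc]
      have ha : (1 : ℝ) ≤ ((desc root g).c : ℝ) := hM.c_one
      obtain ⟨s1, s2, s3⟩ := start ((desc root g).c : ℝ) (w0 c (desc root g))
        ((3 * w0 c (desc root g) * (desc root g).c - pv c (desc root g) : ℤ) : ℝ) ha
      have a1 : 1 ≤ pv c (desc root g) := by exact_mod_cast hM.ha
      have b1 : 1 ≤ w0 c (desc root g) := by exact_mod_cast hM.hb
      have m1 : (pv c (desc root g)) ^ 2 + (w0 c (desc root g)) ^ 2 + (desc root g).c ^ 2 =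
          3 * pv c (desc root g) * w0 c (desc root g) * (desc root g).c := by exact_mod_cast hM.hm
      have g1 : 2 * pv c (desc root g) * w0 c (desc root g) ≤ (desc root g).c := by exact_mod_cast hM.c_ge
      have hpc := pc_desc g
      refine ⟨0, pv c (desc root g), w0 c (desc root g), a1, by nlinarith, b1, by nlinarith, by linarith, ?_, ?_, ?_, ?_, ?_⟩
      · unfold pv
        cases c
        · exact hpc.2.2
        · exact hpc.2.1
      · unfold w0
        cases c
        · exact hpc.2.1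
        · exact hpc.2.2
      · unfold pv w0
        cases c
        · exact hpc.1.symm
        · exact hpc.1
      · rw [lam_eq, zero_add, pow_one, pow_one, ← s3]
        push_cast
        ring
      · rw [pow_zero, pow_zero, mul_one, mul_one, ← s1]

theorem runrep : RUNREP := by
  intro g c
  have hv := valid_root.desc g
  have hM := MTc hv c
  have hM' : MT (piv g c : ℝ) (w0 c (desc root g)) (desc root g).c := by
    rw [piv_eq]
    exact hM
  obtain ⟨s1, s2, s3⟩ := start (piv g c : ℝ) (w0 c (desc root g)) (desc root g).c hM'.ha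
  have hall := recur (piv g c : ℝ) hM'.ha (kap (piv g c) (w0 c (desc root g)) (desc root g).c)
    (kap' (piv g c) (w0 c (desc root g)) (desc root g).c) (fun m => (wv g c m : ℝ))
    (by
      rw [wv_eq, rn_zero]
      exact s1)
    (by
      show ((wv g c (0 + 1) : ℤ) : ℝ) = _
      rw [wv_succ, rn_zero]
      exact s2)
    (fun m => by
      rw [wv_rec]
      push_cast
      ring)
  refine ⟨kap (piv g c) (w0 c (desc root g)) (desc root g).c, kap' (piv g c) (w0 c (desc root g)) (desc root g).c,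
    kap_pos hM', kap'_pos hM', kap_mul hM', hall, fun m => ?_, main_ind g c⟩
  rw [← wv_succ]
  exact hall (m + 1)

end

end Pool.Agent.N615.MXR
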