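import Pool.Agent.N576.MX.Defs

/-!
# Project MX: the values of the words leaving a run as polynomials (helper615 for helper576)
-/

set_option autoImplicit false

namespace Pool.Agent.N615.MX

open Pool.Agent.H499R2 Pool.Agent.N576.MX
open Polynomial

noncomputable section

/-- a sequence which, multiplied by `(lam ^ m) ^ d`, is a polynomial of degree at most `2 d` in `lam ^ m` -/
def Rep (l : ℝ) (F : ℕ → ℝ) (d : ℕ) (L M : ℝ) : Prop :=
  ∃ P : Polynomial ℝ, P.natDegree ≤ 2 * d ∧ P.coeff (2 * d) = L ∧ P.coeff 0 = M ∧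
    ∀ m : ℕ, F m * (l ^ m) ^ d = P.eval (l ^ m)

lemma Rep.congr {l : ℝ} {F F' : ℕ → ℝ} {d d' : ℕ} {L M L' M' : ℝ} (h : Rep l F d L M) (hF : ∀ m, F' m = F m)
    (hd : d' = d) (hL : L' = L) (hM : M' = M) : Rep l F' d' L' M' := by
  subst hd hL hM
  obtain ⟨P, h1, h2, h3, h4⟩ := h
  exact ⟨P, h1, h2, h3, fun m => by rw [hF, h4]⟩

lemma Rep.mul_sub {l : ℝ} {F1 F2 F3 : ℕ → ℝ} {d1 d2 d3 : ℕ} {L1 L2 L3 M1 M2 M3 : ℝ} (h1 : Rep l F1 d1 L1 M1)
    (h2 : Rep l F2 d2 L2 M2) (h3 : Rep l F3 d3 L3 M3) (hd : d3 < d1 + d2) :
    Rep l (fun m => 3 * F1 m * F2 m - F3 m) (d1 + d2) (3 * (L1 * L2)) (3 * (M1 * M2)) := by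
  obtain ⟨P1, a1, b1, c1, e1⟩ := h1
  obtain ⟨P2, a2, b2, c2, e2⟩ := h2
  obtain ⟨P3, a3, b3, c3, e3⟩ := h3
  have hdeg3 : (P3 * X ^ (d1 + d2 - d3)).natDegree ≤ d1 + d2 + d3 := by
    refine natDegree_mul_le.trans ?_
    rw [natDegree_X_pow]
    omega
  have hdeg12 : (P1 * P2).natDegree ≤ 2 * d1 + 2 * d2 := natDegree_mul_le.trans (Nat.add_le_add a1 a2)
  refine ⟨C 3 * (P1 * P2) - P3 * X ^ (d1 + d2 - d3), ?_, ?_, ?_, ?_⟩
  · refine (natDegree_sub_le _ _).trans (max_le ?_ (by omega))
    refine (natDegree_C_mul_le _ _).trans ?_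
    omega
  · rw [coeff_sub, coeff_C_mul]
    have k1 : (P1 * P2).coeff (2 * (d1 + d2)) = L1 * L2 := by
      rw [show 2 * (d1 + d2) = 2 * d1 + 2 * d2 by ring, coeff_mul_add_eq_of_natDegree_le a1 a2, b1, b2]
    have k2 : (P3 * X ^ (d1 + d2 - d3)).coeff (2 * (d1 + d2)) = 0 :=
      coeff_eq_zero_of_natDegree_lt (by omega)
    rw [k1, k2, sub_zero]
  · rw [coeff_sub, coeff_C_mul, mul_coeff_zero, mul_coeff_zero, c1, c2]
    have k3 : (X ^ (d1 + d2 - d3) : ℝ[X]).coeff 0 = 0 := by
      rw [coeff_X_pow, if_neg (by omega)]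
    rw [k3]
    ring
  · intro m
    rw [eval_sub, eval_mul, eval_C, eval_mul, eval_mul, eval_pow, eval_X, ← e1, ← e2, ← e3]
    have k : (l ^ m) ^ (d1 + d2) = (l ^ m) ^ d3 * (l ^ m) ^ (d1 + d2 - d3) := by
      rw [← pow_add]
      congr 1
      omega
    rw [sub_mul, k]
    have k' : (l ^ m) ^ d1 * (l ^ m) ^ d2 = (l ^ m) ^ d3 * (l ^ m) ^ (d1 + d2 - d3) := by
      rw [← pow_add, ← k]
    calc 3 * F1 m * F2 m * ((l ^ m) ^ d3 * (l ^ m) ^ (d1 + d2 - d3)) - F3 m * ((l ^ m) ^ d3 * (l ^ m) ^ (d1 + d2 - d3))
        = 3 * F1 m * F2 m * ((l ^ m) ^ d1 * (l ^ m) ^ d2) - F3 m * ((l ^ m) ^ d3 * (l ^ m) ^ (d1 + d2 - d3)) := by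
          rw [k']
      _ = _ := by ring

lemma Rep.const (l u : ℝ) : Rep l (fun _ => u) 0 u u := by
  refine ⟨C u, by simp, by simp, by simp, fun m => by simp⟩

lemma lin_rep (l : ℝ) (hl : l ≠ 0) (a b : ℝ) : Rep l (fun m => (a * l ^ m + b * l⁻¹ ^ m) / 3) 1 (a / 3) (b / 3) := by
  refine ⟨C (a / 3) * X ^ 2 + C (b / 3), ?_, ?_, ?_, ?_⟩
  · refine (natDegree_add_le _ _).trans (max_le ((natDegree_C_mul_le _ _).trans ?_) ?_)
    · rw [natDegree_X_pow]
    · rw [natDegree_C]
      omega
  · rw [coeff_add, coeff_C_mul, coeff_X_pow, coeff_C]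
    norm_num
  · rw [coeff_add, coeff_C_mul, coeff_X_pow, coeff_C]
    norm_num
  · intro m
    simp only [eval_add, eval_mul, eval_C, eval_pow, eval_X, pow_one]
    have h : l⁻¹ ^ m * l ^ m = 1 := by
      rw [← mul_pow, inv_mul_cancel₀ hl, one_pow]
    calc (a * l ^ m + b * l⁻¹ ^ m) / 3 * l ^ m = a / 3 * (l ^ m) ^ 2 + b / 3 * (l⁻¹ ^ m * l ^ m) := by ring
      _ = _ := by rw [h, mul_one]

/-! ### the tree -/

lemma run_true (X : Nd) (m : ℕ) : (desc X (List.replicate m true)).a = X.a := by
  induction m generalizing X with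
  | zero => rfl
  | succ m ih =>
    rw [List.replicate_succ]
    simp only [desc]
    rw [ih]
    rfl

lemma run_false (X : Nd) (m : ℕ) : (desc X (List.replicate m false)).b = X.b := by
  induction m generalizing X with
  | zero => rfl
  | succ m ih =>
    rw [List.replicate_succ]
    simp only [desc]
    rw [ih]
    rfl

lemma piv_run (g : List Bool) (c : Bool) (m : ℕ) :
    piv g c = if c then (desc root (rn g c m)).a else (desc root (rn g c m)).b := by
  unfold piv rn
  rw [desc_append]
  cases c
  · simp only [Bool.false_eq_true, if_false]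
    rw [run_false]
  · simp only [if_true]
    rw [run_true]

lemma piv_ge (g : List Bool) (c : Bool) : (1 : ℝ) ≤ piv g c := by
  have h := (valid_root.desc g).mt
  unfold piv
  cases c
  · simp only [Bool.false_eq_true, if_false]
    exact h.hb
  · simp only [if_true]
    exact h.ha

lemma lam_eq (u : ℤ) : Pool.Agent.N576.MX.lam u = Pool.Agent.H499R2.lam (u : ℝ) := rfl

lemma lam_pos' (g : List Bool) (c : Bool) : 0 < Pool.Agent.N576.MX.lam (piv g c) := by
  rw [lam_eq]
  exact Pool.Agent.H499R2.lam_pos _ (piv_ge g c)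

/-- the first coordinates of the vectors of a node -/
def xa (c : Bool) (N : Nd) : ℤ := if c then N.ux else N.uy
def xb (c : Bool) (N : Nd) : ℤ := if c then N.vx else N.vy

lemma rep_all (g : List Bool) (c : Bool) (x y : ℝ)
    (hw : ∀ m : ℕ, (wv g c m : ℝ) =
      (x * Pool.Agent.N576.MX.lam (piv g c) ^ m + y * (Pool.Agent.N576.MX.lam (piv g c))⁻¹ ^ m) / 3)
    (hc : ∀ m : ℕ, ((desc root (rn g c m)).c : ℝ) =
      (x * Pool.Agent.N576.MX.lam (piv g c) ^ (m + 1) + y * (Pool.Agent.N576.MX.lam (piv g c))⁻¹ ^ (m + 1)) / 3)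
    (s : List Bool) (l : ℝ) (hl : l = Pool.Agent.N576.MX.lam (piv g c)) :
    Rep l (fun m => ((desc (desc root (rn g c m ++ [!c])) s).a : ℝ)) (desc root s).p
      (x ^ (desc root s).p * l ^ (xa c (desc root s)) / 3) (y ^ (desc root s).p * l⁻¹ ^ (xa c (desc root s)) / 3) ∧
    Rep l (fun m => ((desc (desc root (rn g c m ++ [!c])) s).b : ℝ)) (desc root s).q
      (x ^ (desc root s).q * l ^ (xb c (desc root s)) / 3) (y ^ (desc root s).q * l⁻¹ ^ (xb c (desc root s)) / 3) ∧
    Rep l (fun m => ((desc (desc root (rn g c m ++ [!c])) s).c : ℝ)) ((desc root s).p + (desc root s).q)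
      (x ^ ((desc root s).p + (desc root s).q) * l ^ (xa c (desc root s) + xb c (desc root s)) / 3)
      (y ^ ((desc root s).p + (desc root s).q) * l⁻¹ ^ (xa c (desc root s) + xb c (desc root s)) / 3) := by
  have hl0 : l ≠ 0 := by
    rw [hl]
    exact (lam_pos' g c).ne'
  have hli : l⁻¹ ≠ 0 := inv_ne_zero hl0
  induction s using List.reverseRecOn with
  | nil =>
    have hR0 : Rep l (fun m => (wv g c m : ℝ)) 1 (x / 3) (y / 3) :=
      (lin_rep l hl0 x y).congr (fun m => by rw [hw m, hl]) rfl rfl rfl
    have hR1 : Rep l (fun m => ((desc root (rn g c m)).c : ℝ)) 1 (x * l / 3) (y * l⁻¹ / 3) :=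
      (lin_rep l hl0 (x * l) (y * l⁻¹)).congr (fun m => by
        rw [hc m, ← hl, pow_succ, pow_succ]
        ring) rfl rfl rfl
    have hR2 := hR0.mul_sub hR1 (Rep.const l (piv g c)) (by norm_num)
    cases c
    · have e : ∀ m, desc root (rn g false m ++ [!false]) = lf (desc root (rn g false m)) := by
        intro m
        rw [desc_append]
        rfl
      refine ⟨?_, ?_, ?_⟩
      · refine hR0.congr (fun m => ?_) rfl ?_ ?_
        · simp only [desc]
          rw [e m]
          rfl
        · simp [desc, root, xa]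
        · simp [desc, root, xa]
      · refine hR1.congr (fun m => ?_) rfl ?_ ?_
        · simp only [desc]
          rw [e m]
          rfl
        · simp [desc, root, xb]
        · simp [desc, root, xb]
      · refine hR2.congr (fun m => ?_) rfl ?_ ?_
        · simp only [desc]
          rw [e m, piv_run g false m]
          unfold wv
          simp only [Bool.false_eq_true, if_false, lf]
          push_cast
          ring
        · simp only [desc, root, xa, xb]
          simp only [Bool.false_eq_true, if_false]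
          norm_num
          ring
        · simp only [desc, root, xa, xb]
          simp only [Bool.false_eq_true, if_false]
          norm_num
          ring
    · have e : ∀ m, desc root (rn g true m ++ [!true]) = rt (desc root (rn g true m)) := by
        intro m
        rw [desc_append]
        rfl
      refine ⟨?_, ?_, ?_⟩
      · refine hR1.congr (fun m => ?_) rfl ?_ ?_
        · simp only [desc]
          rw [e m]
          rfl
        · simp [desc, root, xa]
        · simp [desc, root, xa]
      · refine hR0.congr (fun m => ?_) rfl ?_ ?_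
        · simp only [desc]
          rw [e m]
          rfl
        · simp [desc, root, xb]
        · simp [desc, root, xb]
      · refine hR2.congr (fun m => ?_) rfl ?_ ?_
        · simp only [desc]
          rw [e m, piv_run g true m]
          unfold wv
          simp only [if_true, rt]
          push_cast
          ring
        · simp only [desc, root, xa, xb]
          simp only [if_true]
          norm_num
          ring
        · simp only [desc, root, xa, xb]
          simp only [if_true]
          norm_num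
          ring
  | append_singleton s b ih =>
    obtain ⟨hA, hB, hC⟩ := ih
    have hv := valid_root.desc s
    have hp := hv.p1
    have hq := hv.q1
    cases b
    · -- right step
      have e1 : desc root (s ++ [false]) = rt (desc root s) := desc_snoc root s false
      have e2 : ∀ m, desc (desc root (rn g c m ++ [!c])) (s ++ [false]) = rt (desc (desc root (rn g c m ++ [!c])) s) :=
        fun m => desc_snoc _ s false
      have hN := hC.mul_sub hB hA (by omega)
      rw [e1]
      have xa1 : xa c (rt (desc root s)) = xa c (desc root s) + xb c (desc root s) := by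
        cases c <;> rfl
      have xb1 : xb c (rt (desc root s)) = xb c (desc root s) := by
        cases c <;> rfl
      rw [xa1, xb1]
      refine ⟨?_, ?_, ?_⟩
      · refine hC.congr (fun m => ?_) rfl rfl rfl
        rw [e2 m]
        rfl
      · refine hB.congr (fun m => ?_) rfl rfl rfl
        rw [e2 m]
        rfl
      · refine hN.congr (fun m => ?_) rfl ?_ ?_
        · rw [e2 m]
          simp only [rt]
          push_cast
          ring
        · simp only [rt]
          rw [zpow_add₀ hl0 (xa c (desc root s) + xb c (desc root s)), pow_add x ((desc root s).p + (desc root s).q)]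
          ring
        · simp only [rt]
          rw [zpow_add₀ hli (xa c (desc root s) + xb c (desc root s)), pow_add y ((desc root s).p + (desc root s).q)]
          ring
    · -- left step
      have e1 : desc root (s ++ [true]) = lf (desc root s) := desc_snoc root s true
      have e2 : ∀ m, desc (desc root (rn g c m ++ [!c])) (s ++ [true]) = lf (desc (desc root (rn g c m ++ [!c])) s) :=
        fun m => desc_snoc _ s true
      have hN := hA.mul_sub hC hB (by omega)
      rw [e1]
      have xa1 : xa c (lf (desc root s)) = xa c (desc root s) := by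
        cases c <;> rfl
      have xb1 : xb c (lf (desc root s)) = xa c (desc root s) + xb c (desc root s) := by
        cases c <;> rfl
      rw [xa1, xb1]
      refine ⟨?_, ?_, ?_⟩
      · refine hA.congr (fun m => ?_) rfl rfl rfl
        rw [e2 m]
        rfl
      · refine hC.congr (fun m => ?_) rfl rfl rfl
        rw [e2 m]
        rfl
      · refine hN.congr (fun m => ?_) rfl ?_ ?_
        · rw [e2 m]
          simp only [lf]
          push_cast
          ring
        · simp only [lf]
          rw [zpow_add₀ hl0 (xa c (desc root s)) (xa c (desc root s) + xb c (desc root s)), pow_add x (desc root s).p]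
          ring
        · simp only [lf]
          rw [zpow_add₀ hli (xa c (desc root s)) (xa c (desc root s) + xb c (desc root s)), pow_add y (desc root s).p]
          ring

theorem eprep : EPREP := by
  intro g c x y hw hc s
  obtain ⟨-, -, hC⟩ := rep_all g c x y hw hc s _ rfl
  have h1 : (desc root s).p + (desc root s).q = sz s := sz_pq s
  have h2 : xa c (desc root s) + xb c (desc root s) = (jj c s : ℤ) := by
    obtain ⟨k1, k2⟩ := zz_eq s
    unfold zz vec at k1 k2
    unfold jj xa xb
    cases c
    · simp only [Bool.false_eq_true, if_false]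
      exact k2
    · simp only [if_true]
      exact k1
  rw [h1, h2, zpow_natCast, zpow_natCast] at hC
  obtain ⟨P, p1, p2, p3, p4⟩ := hC
  refine ⟨P, p1, p2, p3, fun m => ?_⟩
  rw [← p4 m]
  congr 2
  unfold ofr
  rw [show rn g c m ++ (!c) :: s = (rn g c m ++ [!c]) ++ s by simp, desc_append]

end

end Pool.Agent.N615.MX
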