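import Mathlib
import Pool.Agent.N576.MX2.D

/-!
# MX2 (project of helper576): EXA1 and EXA2, multiplicative independence by conjugation (helper615)
-/

set_option autoImplicit false

namespace Pool.Agent.N615.MX2

open Pool.Agent.N576.MX2

/-- `y` is the conjugate of `x` in `ℚ(w)` -/
def Cj (w x y : ℝ) : Prop := ∃ p q : ℚ, x = p + q * w ∧ y = p - q * w

theorem Cj.rat (w : ℝ) (p : ℚ) : Cj w p p := ⟨p, 0, by simp, by simp⟩

theorem Cj.int (w : ℝ) (p : ℤ) : Cj w p p := ⟨p, 0, by simp, by simp⟩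

theorem Cj.self (w : ℝ) : Cj w w (-w) := ⟨0, 1, by simp, by simp⟩

theorem Cj.add {w x y x' y' : ℝ} (h : Cj w x y) (h' : Cj w x' y') : Cj w (x + x') (y + y') := by
  obtain ⟨p, q, h1, h2⟩ := h
  obtain ⟨p', q', h1', h2'⟩ := h'
  refine ⟨p + p', q + q', ?_, ?_⟩
  · rw [h1, h1']
    push_cast
    ring
  · rw [h2, h2']
    push_cast
    ring

theorem Cj.mul {w x y x' y' : ℝ} {D : ℚ} (hw : w ^ 2 = D) (h : Cj w x y) (h' : Cj w x' y') :
    Cj w (x * x') (y * y') := by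
  obtain ⟨p, q, h1, h2⟩ := h
  obtain ⟨p', q', h1', h2'⟩ := h'
  refine ⟨p * p' + q * q' * D, p * q' + q * p', ?_, ?_⟩
  · rw [h1, h1']
    push_cast
    linear_combination (q * q' : ℝ) * hw
  · rw [h2, h2']
    push_cast
    linear_combination (q * q' : ℝ) * hw

theorem Cj.ne {w x y : ℝ} (hirr : Irrational w) (h : Cj w x y) (hx : x ≠ 0) : y ≠ 0 := by
  obtain ⟨p, q, h1, h2⟩ := h
  intro h3
  rw [h2] at h3
  by_cases hq : q = 0
  · rw [hq, Rat.cast_zero, zero_mul, add_zero] at h1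
    rw [hq, Rat.cast_zero, zero_mul, sub_zero] at h3
    exact hx (h1.trans h3)
  · refine hirr ⟨p / q, ?_⟩
    have hq' : (q : ℝ) ≠ 0 := by exact_mod_cast hq
    push_cast
    field_simp
    linarith

theorem Cj.inv {w x y : ℝ} {D : ℚ} (hw : w ^ 2 = D) (hirr : Irrational w) (h : Cj w x y)
    (hx : x ≠ 0) : Cj w x⁻¹ y⁻¹ := by
  have hy := h.ne hirr hx
  obtain ⟨p, q, h1, h2⟩ := h
  have h3 : x * y = ((p ^ 2 - q ^ 2 * D : ℚ) : ℝ) := by
    rw [h1, h2]
    push_cast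
    linear_combination (-(q : ℝ) ^ 2) * hw
  have h4 : ((p ^ 2 - q ^ 2 * D : ℚ) : ℝ) ≠ 0 := by
    rw [← h3]
    exact mul_ne_zero hx hy
  refine ⟨p / (p ^ 2 - q ^ 2 * D), -q / (p ^ 2 - q ^ 2 * D), ?_, ?_⟩
  · rw [Rat.cast_div, Rat.cast_div, ← h3, Rat.cast_neg]
    field_simp
    linarith
  · rw [Rat.cast_div, Rat.cast_div, ← h3, Rat.cast_neg]
    field_simp
    linarith

theorem Cj.pow {w x y : ℝ} {D : ℚ} (hw : w ^ 2 = D) (h : Cj w x y) (n : ℕ) :
    Cj w (x ^ n) (y ^ n) := by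
  induction n with
  | zero =>
    rw [pow_zero, pow_zero]
    exact_mod_cast Cj.int w 1
  | succ n ih =>
    rw [pow_succ, pow_succ]
    exact ih.mul hw h

theorem Cj.zpow {w x y : ℝ} {D : ℚ} (hw : w ^ 2 = D) (hirr : Irrational w) (h : Cj w x y)
    (hx : x ≠ 0) (n : ℤ) : Cj w (x ^ n) (y ^ n) := by
  cases n with
  | ofNat n =>
    rw [Int.ofNat_eq_natCast, zpow_natCast, zpow_natCast]
    exact h.pow hw n
  | negSucc n =>
    rw [zpow_negSucc, zpow_negSucc]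
    exact (h.pow hw _).inv hw hirr (pow_ne_zero _ hx)

theorem Cj.uniq {w x y y' : ℝ} (hirr : Irrational w) (h : Cj w x y) (h' : Cj w x y') :
    y = y' := by
  obtain ⟨p, q, h1, h2⟩ := h
  obtain ⟨p', q', h1', h2'⟩ := h'
  have h3 : q = q' := by
    by_contra hq
    refine hirr ⟨(p' - p) / (q - q'), ?_⟩
    have hq' : (q : ℝ) - q' ≠ 0 := by
      rw [sub_ne_zero]
      exact_mod_cast hq
    push_cast
    rw [div_eq_iff hq']
    rw [h1] at h1'
    linarith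
  have h4 : (p : ℝ) = p' := by
    rw [h1, h3] at h1'
    linarith
  rw [h2, h2', h3, h4]

/-! ### the numbers -/

theorem De_pos {u : ℤ} (hu : 1 ≤ u) : 0 < De u := by
  have h1 : (1 : ℝ) ≤ u := by exact_mod_cast hu
  unfold De
  nlinarith

theorem irr {u : ℤ} (hu : 1 ≤ u) : Irrational (Real.sqrt (De u)) := by
  have h1 : De u = ((9 * u ^ 2 - 4 : ℤ) : ℝ) := by
    unfold De
    push_cast
    ring
  rw [h1, irrational_sqrt_intCast_iff]
  refine ⟨?_, by nlinarith⟩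
  rintro ⟨k, hk⟩
  have h2 : |k| < 3 * u := by
    refine abs_lt_of_sq_lt_sq ?_ (by linarith)
    nlinarith
  have h3 : |k| * |k| = k * k := abs_mul_abs_self k
  have h4 : 0 ≤ |k| := abs_nonneg k
  nlinarith

theorem la_eq (u : ℤ) : la u = (3 * u + Real.sqrt (De u)) / 2 := rfl

theorem la_pos {u : ℤ} (hu : 1 ≤ u) : 0 < la u := by
  have h1 : (1 : ℝ) ≤ u := by exact_mod_cast hu
  rw [la_eq]
  positivity

theorem la_inv {u : ℤ} (hu : 1 ≤ u) : (la u)⁻¹ = (3 * u - Real.sqrt (De u)) / 2 := by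
  apply inv_eq_of_mul_eq_one_right
  rw [la_eq]
  have h1 := Real.sq_sqrt (De_pos hu).le
  have h2 : De u = 9 * (u : ℝ) ^ 2 - 4 := rfl
  nlinarith

theorem la_add {u : ℤ} (hu : 1 ≤ u) : la u + (la u)⁻¹ = 3 * u := by
  rw [la_inv hu, la_eq]
  ring

theorem sq_w {u : ℤ} (hu : 1 ≤ u) : Real.sqrt (De u) ^ 2 = ((9 * (u : ℚ) ^ 2 - 4 : ℚ) : ℝ) := by
  rw [Real.sq_sqrt (De_pos hu).le]
  unfold De
  push_cast
  ring

theorem cj_la {u : ℤ} (hu : 1 ≤ u) : Cj (Real.sqrt (De u)) (la u) (la u)⁻¹ :=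
  ⟨3 * u / 2, 1 / 2, by rw [la_eq]; push_cast; ring, by rw [la_inv hu]; push_cast; ring⟩

theorem WW_mul {u : ℤ} (hu : 1 ≤ u) (i j : ℤ) : WW u i j * WW u j i = NN u i j := by
  have h1 := la_add hu
  have h2 : la u * (la u)⁻¹ = 1 := mul_inv_cancel₀ (la_pos hu).ne'
  unfold WW NN
  push_cast
  have h3 : (la u + (la u)⁻¹) ^ 2 = 9 * (u : ℝ) ^ 2 := by
    rw [h1]
    ring
  linear_combination ((i : ℝ) * j) * h3 + ((i : ℝ) ^ 2 + (j : ℝ) ^ 2 - 2 * i * j) * h2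

theorem WW_pos {u : ℤ} (hu : 1 ≤ u) {i j : ℤ} (hi : 1 ≤ i) (hj : 1 ≤ j) : 0 < WW u i j := by
  have h1 := la_pos hu
  have h2 : (1 : ℝ) ≤ i := by exact_mod_cast hi
  have h3 : (1 : ℝ) ≤ j := by exact_mod_cast hj
  unfold WW
  positivity

/-- from a relation between logarithms to the conjugate relation -/
theorem rel {u : ℤ} (hu : 1 ≤ u) {x y : ℝ} (h : Cj (Real.sqrt (De u)) x y) (hx : 0 < x) {N M : ℤ}
    (hNM : (N : ℝ) * Real.log x = M * Real.log (la u)) : (x * y) ^ N = 1 := by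
  have hl := la_pos hu
  have h1 : x ^ N = la u ^ M := by
    apply Real.log_injOn_pos (Set.mem_Ioi.2 (zpow_pos hx N)) (Set.mem_Ioi.2 (zpow_pos hl M))
    rw [Real.log_zpow, Real.log_zpow]
    exact hNM
  have h2 : Cj (Real.sqrt (De u)) (x ^ N) (y ^ N) := h.zpow (sq_w hu) (irr hu) hx.ne' N
  have h3 : Cj (Real.sqrt (De u)) (la u ^ M) ((la u)⁻¹ ^ M) :=
    (cj_la hu).zpow (sq_w hu) (irr hu) hl.ne' M
  rw [← h1] at h3
  have h4 : y ^ N = (la u)⁻¹ ^ M := h2.uniq (irr hu) h3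
  rw [mul_zpow, h4, h1, ← mul_zpow, mul_inv_cancel₀ hl.ne', one_zpow]

theorem exa1 : EXA1 := by
  rintro u A B N M ⟨hA1, hAu, hB1, hBu, hABu⟩ hN hNM
  have hu : 1 ≤ u := hA1.trans hAu
  have hl := la_pos hu
  have hw := Real.sqrt_pos.2 (De_pos hu)
  have hA1' : (1 : ℝ) ≤ A := by exact_mod_cast hA1
  have hAu' : (A : ℝ) ≤ u := by exact_mod_cast hAu
  have hB1' : (1 : ℝ) ≤ B := by exact_mod_cast hB1
  have hX : 0 < X0 u A B := by
    unfold X0 Xi
    refine div_pos ?_ hw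
    have h1 : (A : ℝ) < la u := by
      rw [la_eq]
      linarith
    have h2 : (A : ℝ) * (la u)⁻¹ < 1 := by
      rw [← div_eq_mul_inv, div_lt_one hl]
      exact h1
    nlinarith
  have hcw : Cj (Real.sqrt (De u)) (Real.sqrt (De u))⁻¹ (-Real.sqrt (De u))⁻¹ :=
    (Cj.self _).inv (sq_w hu) (irr hu) hw.ne'
  have hci : Cj (Real.sqrt (De u)) (la u)⁻¹ (la u) := by
    have := (cj_la hu).inv (sq_w hu) (irr hu) hl.ne'
    rwa [inv_inv] at this
  have hcX : Cj (Real.sqrt (De u)) (X0 u A B)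
      ((3 * B + (-(3 * A)) * la u) * (-Real.sqrt (De u))⁻¹) := by
    have h1 : X0 u A B = (3 * B + (-(3 * A)) * (la u)⁻¹) * (Real.sqrt (De u))⁻¹ := by
      unfold X0 Xi
      rw [div_eq_mul_inv]
      ring
    rw [h1]
    refine Cj.mul (sq_w hu) (Cj.add ?_ (Cj.mul (sq_w hu) ?_ hci)) hcw
    · exact_mod_cast Cj.int _ (3 * B)
    · exact_mod_cast Cj.int _ (-(3 * A))
  have h1 := rel hu hcX hX hNM
  have h2 : X0 u A B * ((3 * B + (-(3 * A)) * la u) * (-Real.sqrt (De u))⁻¹) =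
      9 * (u : ℝ) ^ 2 / De u := by
    have e1 : Real.sqrt (De u) * Real.sqrt (De u) = De u := Real.mul_self_sqrt (De_pos hu).le
    have e2 : la u * (la u)⁻¹ = 1 := mul_inv_cancel₀ hl.ne'
    have e3 := la_add hu
    have e4 : (A : ℝ) ^ 2 + (B : ℝ) ^ 2 + (u : ℝ) ^ 2 = 3 * u * A * B := by exact_mod_cast hABu
    unfold X0 Xi
    rw [inv_neg, mul_neg, mul_neg, div_mul_eq_mul_div, ← mul_assoc, ← div_eq_mul_inv, div_div, e1,
      ← neg_div]
    congr 1
    linear_combination (-(9 : ℝ) * A ^ 2) * e2 + ((9 : ℝ) * A * B) * e3 - 9 * e4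
  rw [h2] at h1
  have h3 : 1 < 9 * (u : ℝ) ^ 2 / De u := by
    rw [one_lt_div (De_pos hu)]
    unfold De
    linarith
  have h4 := one_lt_zpow₀ h3 (show 0 < N by linarith)
  rw [h1] at h4
  exact lt_irrefl _ h4

theorem exa2 : EXA2 := by
  intro u u' i j i' j' N M n hu hu' hi hj hi' hj' hn hN hNM
  have hl := la_pos hu
  have hl' := la_pos hu'
  have hD := De_pos hu
  have hD' := De_pos hu'
  have hw := Real.sqrt_pos.2 hD
  have hw' := Real.sqrt_pos.2 hD'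
  have hW := WW_pos hu hi hj
  have hW' := WW_pos hu' hi' hj'
  have hWs := WW_pos hu hj hi
  have hWs' := WW_pos hu' hj' hi'
  have hprod : Real.sqrt (De u) * Real.sqrt (De u') = n := by
    rw [← Real.sqrt_mul hD.le]
    have h1 : De u * De u' = (n : ℝ) ^ 2 := by
      have h2 : ((n : ℤ) : ℝ) ^ 2 = (9 * (u : ℝ) ^ 2 - 4) * (9 * (u' : ℝ) ^ 2 - 4) := by
        exact_mod_cast hn
      unfold De
      rw [← h2]
      push_cast
      ring
    rw [h1, Real.sqrt_sq (Nat.cast_nonneg n)]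
  have hww : Real.sqrt (De u') = n * (Real.sqrt (De u))⁻¹ := by
    rw [← hprod]
    field_simp
  have hcw' : Cj (Real.sqrt (De u)) (Real.sqrt (De u')) (-Real.sqrt (De u')) := by
    have h1 := Cj.mul (sq_w hu) (Cj.int (Real.sqrt (De u)) n)
      ((Cj.self _).inv (sq_w hu) (irr hu) hw.ne')
    have h2 : -Real.sqrt (De u') = ((n : ℤ) : ℝ) * (-Real.sqrt (De u))⁻¹ := by
      rw [hww, inv_neg, mul_neg, Int.cast_natCast]
    have h3 : Real.sqrt (De u') = ((n : ℤ) : ℝ) * (Real.sqrt (De u))⁻¹ := by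
      rw [hww, Int.cast_natCast]
    rw [← h2, ← h3] at h1
    exact h1
  have hcl' : Cj (Real.sqrt (De u)) (la u') (la u')⁻¹ := by
    have h1 := Cj.mul (sq_w hu) (Cj.rat (Real.sqrt (De u)) (1 / 2))
      ((Cj.int _ (3 * u')).add hcw')
    have h2 : la u' = ((1 / 2 : ℚ) : ℝ) * (((3 * u' : ℤ) : ℝ) + Real.sqrt (De u')) := by
      rw [la_eq]
      push_cast
      ring
    have h3 : (la u')⁻¹ = ((1 / 2 : ℚ) : ℝ) * (((3 * u' : ℤ) : ℝ) + -Real.sqrt (De u')) := by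
      rw [la_inv hu']
      push_cast
      ring
    rw [← h2, ← h3] at h1
    exact h1
  have hW1 : ∀ (v a b : ℤ), 0 < la v → Cj (Real.sqrt (De u)) (la v) (la v)⁻¹ →
      Cj (Real.sqrt (De u)) (WW v a b) (WW v b a) := by
    intro v a b hv h
    have hinv : Cj (Real.sqrt (De u)) (la v)⁻¹ (la v) := by
      have := h.inv (sq_w hu) (irr hu) hv.ne'
      rwa [inv_inv] at this
    have h1 := Cj.add (Cj.mul (sq_w hu) (Cj.int _ a) h) (Cj.mul (sq_w hu) (Cj.int _ b) hinv)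
    have h2 : WW v b a = a * (la v)⁻¹ + b * la v := by
      unfold WW
      ring
    rw [h2]
    exact h1
  have hDc : ∀ v : ℤ, Cj (Real.sqrt (De u)) (De v) (De v) := by
    intro v
    have h1 : De v = ((9 * v ^ 2 - 4 : ℤ) : ℝ) := by
      unfold De
      push_cast
      ring
    rw [h1]
    exact Cj.int _ _
  have hcal : Cj (Real.sqrt (De u)) (WW u i j * De u' / (WW u' i' j' * De u))
      (WW u j i * De u' / (WW u' j' i' * De u)) := by
    rw [div_eq_mul_inv, div_eq_mul_inv]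
    exact Cj.mul (sq_w hu) (Cj.mul (sq_w hu) (hW1 u i j hl (cj_la hu)) (hDc u'))
      ((Cj.mul (sq_w hu) (hW1 u' i' j' hl' hcl') (hDc u)).inv (sq_w hu) (irr hu)
        (mul_pos hW' hD).ne')
  have h1 := rel hu hcal (by positivity) hNM
  obtain ⟨k, rfl⟩ : ∃ k : ℕ, N = k := ⟨N.toNat, (Int.toNat_of_nonneg (by linarith)).symm⟩
  have hk : k ≠ 0 := by
    rintro rfl
    simp at hN
  rw [zpow_natCast, pow_eq_one_iff_of_nonneg (by positivity) hk, div_mul_div_comm,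
    div_eq_one_iff_eq (by positivity)] at h1
  rw [← WW_mul hu, ← WW_mul hu']
  linear_combination h1

end Pool.Agent.N615.MX2
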