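import Pool.Agent.N580.AU.Stm3

/-!
# Project AU: packing of triples of the same shape, three frames (helper615, after helper403)
-/

set_option autoImplicit false

namespace Pool.Agent.N615.AU

open Finset Pool.Agent.N580.AU

theorem pck3 : PCK3 := by
  classical
  intro G _ _ k h I _ X hX s J x hdist hx
  obtain ⟨E, hE⟩ : ∃ E : Fin 3 → (∀ u : Fin 3 × Fin k, Fin (2 ^ s u.1 u.2)) → G, ∀ σ y,
      E σ y = ∑ j, (y (σ, j) : ℕ) • h σ j := ⟨_, fun _ _ => rfl⟩
  have hmem : ∀ i ∈ J, ∀ σ, ∀ y : ∀ u : Fin 3 × Fin k, Fin (2 ^ s u.1 u.2),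
      x i σ + E σ y ∈ X σ i := by
    intro i hi σ y
    rw [hE]
    exact hx i hi σ (fun j => (y (σ, j) : ℕ)) fun j => (y (σ, j)).2
  let f : (J × ∀ u : Fin 3 × Fin k, Fin (2 ^ s u.1 u.2)) → G := fun z =>
    x z.1.1 0 - x z.1.1 2 + E 0 z.2 + E 1 z.2 - E 2 z.2
  have hf : Function.Injective f := by
    rintro ⟨⟨i, hi⟩, y⟩ ⟨⟨k', hk⟩, y'⟩ h'
    have h' : x i 0 - x i 2 + E 0 y + E 1 y - E 2 y =
      x k' 0 - x k' 2 + E 0 y' + E 1 y' - E 2 y' := h'
    obtain ⟨h1, -, h2, h3, h4⟩ := hX i k' k' _ (hmem i hi 0 y) _ (hmem k' hk 0 y') _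
      (hmem k' hk 1 y) _ (hmem k' hk 1 y') _ (hmem k' hk 2 y') _ (hmem i hi 2 y) (by
        rw [← sub_eq_zero] at h'
        rw [← h']
        abel)
    subst h1
    have h5 : y = y' := by
      have h6 : ∀ σ : Fin 3, (fun j => (y (σ, j) : ℕ)) = fun j => (y' (σ, j) : ℕ) := by
        intro σ
        refine hdist σ _ _ (fun j => (y (σ, j)).2) (fun j => (y' (σ, j)).2) ?_
        have e0 := add_left_cancel h2
        have e1 := add_left_cancel h3
        have e2 := add_left_cancel h4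
        rw [hE, hE] at e0 e1 e2
        fin_cases σ
        · exact e0
        · exact e1
        · exact e2.symm
      funext u
      exact Fin.ext (congrFun (h6 u.1) u.2)
    rw [h5]
  have h0 := Nat.card_le_card_of_injective f hf
  rw [Nat.card_prod, Nat.card_pi] at h0
  simpa using h0

end Pool.Agent.N615.AU
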