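import Pool.Agent.N526.CP.MOM

/-!
# FB: integrals of functions of a coordinate over the sphere (helper615, after helper756)
-/

set_option autoImplicit false

open MeasureTheory Metric Set Filter Topology InnerProductGeometry

namespace Pool.Agent.N615.FB

open Pool.Agent.H241R3.FV Pool.Agent.N526.CP

theorem coordf (d : ℕ) (hd : 1 ≤ d) (h : ℝ → ℝ) (hh : Continuous h) :
    ∫ θ : Sph (d + 1), h ((θ : E (d + 1)) 0) ∂(sg (d + 1)) =
      (∫ t in (0 : ℝ)..Real.pi, h (Real.cos t) * Real.sin t ^ (d - 1)) / MOM.J d 0 := by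
  have h1 := MOM.polar d hd 0
  simp only [mul_zero, pow_zero, integral_const, smul_eq_mul, mul_one] at h1
  have h0 : (0 : ℝ) < d * om d := by
    have : (0 : ℝ) < d := by exact_mod_cast hd
    exact mul_pos this (MOM.om_pos d)
  have hp := Pool.Agent.H241R3.FV.TPolar.taskPolar d hd (fun t => h (Real.cos t)) (by fun_prop)
  have hq : ∫ θ : Sph (d + 1), h ((θ : E (d + 1)) 0) ∂(sig (d + 1)) =
      d * om d * ∫ t in (0 : ℝ)..Real.pi, h (Real.cos t) * Real.sin t ^ (d - 1) := by
    rw [← hp]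
    refine integral_congr_ae (Filter.Eventually.of_forall fun θ => ?_)
    have h2 : ‖(θ : E (d + 1))‖ = 1 := by simp
    have h3 : Real.cos (angle (θ : E (d + 1)) (EuclideanSpace.single 0 1)) = (θ : E (d + 1)) 0 := by
      rw [InnerProductGeometry.cos_angle, h2, PiLp.norm_single,
        EuclideanSpace.inner_single_right]
      simp
    simp only [h3]
  unfold sg
  rw [integral_smul_measure, hq, ENNReal.toReal_inv, smul_eq_mul]
  have h2 : (sig (d + 1) univ).toReal = d * om d * MOM.J d 0 := h1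
  rw [h2]
  have h3 := (MOM.J_pos d).ne'
  have h4 := (MOM.om_pos d).ne'
  field_simp

theorem J2 : MOM.J 2 0 = 2 := by
  unfold MOM.J
  simp only [mul_zero, pow_zero, one_mul, Nat.add_one_sub_one, pow_one]
  rw [integral_sin, Real.cos_zero, Real.cos_pi]
  norm_num

theorem J3 : MOM.J 3 0 = Real.pi / 2 := by
  unfold MOM.J
  simp only [mul_zero, pow_zero, one_mul, Nat.add_one_sub_one]
  rw [integral_sin_sq]
  simp

theorem zf2_eq (s : ℝ) : zf 2 s = (∫ t in (0 : ℝ)..Real.pi, (Real.arcsin (s * Real.cos t) * Real.cos t) * Real.sin t) / 2 := by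
  unfold zf
  rw [coordf 2 (by norm_num) (fun u => Real.arcsin (s * u) * u) (by fun_prop), J2]
  simp only [Nat.add_one_sub_one, pow_one]

theorem zf3_eq (s : ℝ) : zf 3 s =
    (∫ t in (0 : ℝ)..Real.pi, (Real.arcsin (s * Real.cos t) * Real.cos t) * Real.sin t ^ 2) / (Real.pi / 2) := by
  unfold zf
  rw [coordf 3 (by norm_num) (fun u => Real.arcsin (s * u) * u) (by fun_prop), J3]

/-- the antiderivative -/
noncomputable def FF (s u : ℝ) : ℝ :=
  u ^ 2 / 2 * Real.arcsin (s * u) - (Real.arcsin (s * u) - s * u * √(1 - (s * u) ^ 2)) / (4 * s ^ 2)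

theorem FF_cont (s : ℝ) : Continuous (FF s) := by
  unfold FF
  fun_prop

theorem FF_deriv (s : ℝ) (hs : 0 < s) (u : ℝ) (h1 : -1 < s * u) (h2 : s * u < 1) :
    HasDerivAt (FF s) (u * Real.arcsin (s * u)) u := by
  have hw : 0 < 1 - (s * u) ^ 2 := by nlinarith
  have hw' : 0 < √(1 - (s * u) ^ 2) := Real.sqrt_pos.2 hw
  have hsq : √(1 - (s * u) ^ 2) ^ 2 = 1 - (s * u) ^ 2 := Real.sq_sqrt hw.le
  have e1 : HasDerivAt (fun u : ℝ => s * u) s u := by
    simpa using (hasDerivAt_id u).const_mul s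
  have e2 : HasDerivAt (fun u : ℝ => Real.arcsin (s * u)) (1 / √(1 - (s * u) ^ 2) * s) u :=
    (Real.hasDerivAt_arcsin h1.ne' h2.ne).comp u e1
  have e3 : HasDerivAt (fun u : ℝ => 1 - (s * u) ^ 2) (-(2 * (s * u) * s)) u := by
    have := (e1.pow 2).const_sub 1
    refine this.congr_deriv ?_
    push_cast
    ring
  have e4 : HasDerivAt (fun u : ℝ => √(1 - (s * u) ^ 2)) (-(2 * (s * u) * s) / (2 * √(1 - (s * u) ^ 2))) u :=
    e3.sqrt hw.ne'
  have e5 : HasDerivAt (fun u : ℝ => u ^ 2 / 2) u u := by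
    have := ((hasDerivAt_id u).pow 2).div_const 2
    refine this.congr_deriv ?_
    simp
  have e6 := (e5.mul e2).sub ((e2.sub (e1.mul e4)).div_const (4 * s ^ 2))
  have hfun : FF s = ((fun u : ℝ => u ^ 2 / 2) * (fun u : ℝ => Real.arcsin (s * u))) -
      fun u => (((fun u : ℝ => Real.arcsin (s * u)) - (fun u : ℝ => s * u) * fun u : ℝ => √(1 - (s * u) ^ 2)) u) /
        (4 * s ^ 2) := by
    funext u
    simp only [FF, Pi.sub_apply, Pi.mul_apply]
  rw [hfun]
  refine e6.congr_deriv ?_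
  set w := √(1 - (s * u) ^ 2) with hwdef
  have hs0 := hs.ne'
  have hw0 := hw'.ne'
  field_simp
  linear_combination 2 * hsq

/-- the integral in dimension three -/
theorem int2 (s : ℝ) (hs : 0 < s) (hs1 : s ≤ 1) :
    ∫ t in (0 : ℝ)..Real.pi, (Real.arcsin (s * Real.cos t) * Real.cos t) * Real.sin t = 2 * FF s 1 := by
  have hd : ∀ t ∈ Ioo (0 : ℝ) Real.pi, HasDerivAt (fun t => -FF s (Real.cos t))
      ((Real.arcsin (s * Real.cos t) * Real.cos t) * Real.sin t) t := by
    intro t ht
    have hc1 : Real.cos t < 1 := by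
      have := Real.strictAntiOn_cos (left_mem_Icc.2 Real.pi_pos.le) (Ioo_subset_Icc_self ht) ht.1
      rwa [Real.cos_zero] at this
    have hc2 : -1 < Real.cos t := by
      have := Real.strictAntiOn_cos (Ioo_subset_Icc_self ht) (right_mem_Icc.2 Real.pi_pos.le) ht.2
      rwa [Real.cos_pi] at this
    have h1 : -1 < s * Real.cos t := by nlinarith
    have h2 : s * Real.cos t < 1 := by nlinarith
    have h3 := ((FF_deriv s hs (Real.cos t) h1 h2).comp t (Real.hasDerivAt_cos t)).neg
    refine h3.congr_deriv ?_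
    ring
  have hc : ContinuousOn (fun t => -FF s (Real.cos t)) (Icc (0 : ℝ) Real.pi) :=
    ((FF_cont s).comp Real.continuous_cos).neg.continuousOn
  have hi : IntervalIntegrable (fun t => (Real.arcsin (s * Real.cos t) * Real.cos t) * Real.sin t) volume 0 Real.pi :=
    Continuous.intervalIntegrable (by fun_prop) _ _
  rw [intervalIntegral.integral_eq_sub_of_hasDerivAt_of_le Real.pi_pos.le hc hd hi, Real.cos_pi, Real.cos_zero]
  have hodd : FF s (-1) = -FF s 1 := by
    unfold FF
    rw [mul_neg, mul_one, Real.arcsin_neg, neg_sq]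
    ring
  rw [hodd]
  ring

/-- the integral in dimension four -/
theorem int3 (s : ℝ) : ∫ t in (0 : ℝ)..Real.pi, (Real.arcsin (s * Real.cos t) * Real.cos t) * Real.sin t ^ 2 =
    2 * ∫ u in (0 : ℝ)..1, u * Real.arcsin (s * u) * √(1 - u ^ 2) := by
  have hcont : Continuous fun u : ℝ => u * Real.arcsin (s * u) * √(1 - u ^ 2) := by fun_prop
  have h1 := intervalIntegral.integral_comp_mul_deriv (a := 0) (b := Real.pi) (f := Real.cos)
    (f' := fun t => -Real.sin t) (g := fun u => u * Real.arcsin (s * u) * √(1 - u ^ 2))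
    (fun t _ => Real.hasDerivAt_cos t) Real.continuous_sin.neg.continuousOn hcont
  rw [Real.cos_zero, Real.cos_pi] at h1
  have h2 : ∫ t in (0 : ℝ)..Real.pi, (Real.arcsin (s * Real.cos t) * Real.cos t) * Real.sin t ^ 2 =
      -∫ x in (0 : ℝ)..Real.pi, ((fun u => u * Real.arcsin (s * u) * √(1 - u ^ 2)) ∘ Real.cos) x * -Real.sin x := by
    rw [← intervalIntegral.integral_neg]
    refine intervalIntegral.integral_congr fun t ht => ?_
    rw [uIcc_of_le Real.pi_pos.le] at ht
    have h3 : √(1 - Real.cos t ^ 2) = Real.sin t := by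
      rw [← Real.sin_sq, Real.sqrt_sq (Real.sin_nonneg_of_mem_Icc ht)]
    simp only [Function.comp]
    rw [h3]
    ring
  rw [h2, h1, ← intervalIntegral.integral_symm]
  have h4 : ∫ u in (-1 : ℝ)..0, u * Real.arcsin (s * u) * √(1 - u ^ 2) =
      ∫ u in (0 : ℝ)..1, u * Real.arcsin (s * u) * √(1 - u ^ 2) := by
    have h5 := intervalIntegral.integral_comp_neg (a := 0) (b := 1)
      (fun u : ℝ => u * Real.arcsin (s * u) * √(1 - u ^ 2))
    rw [neg_zero] at h5
    rw [← h5]
    refine intervalIntegral.integral_congr fun u _ => ?_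
    rw [mul_neg, Real.arcsin_neg, neg_sq]
    ring
  rw [← intervalIntegral.integral_add_adjacent_intervals (hcont.intervalIntegrable (-1) 0)
    (hcont.intervalIntegrable 0 1), h4]
  ring

end Pool.Agent.N615.FB
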