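import Pool.Agent.N979.CP.Stm4
import Pool.Agent.N615.FB_ZF

/-!
# FB: closed form of zf in dimension three (helper615)
-/

set_option autoImplicit false

namespace Pool.Agent.N615.FBZF2

open Pool.Agent.H241R3.FV Pool.Agent.N526.CP Pool.Agent.N979.CP Pool.Agent.N615.FB

theorem main : S_ZF2 := by
  intro s hs hs1
  rw [zf2_eq, int2 s hs hs1]
  unfold FF
  rw [mul_one, one_pow]
  generalize √(1 - s ^ 2) = w
  generalize Real.arcsin s = v
  ring

end Pool.Agent.N615.FBZF2
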