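import Pool.Agent.N979.CP.Stm4
import Pool.Agent.N615.FB_ZF

/-!
# FB: integral form of zf in dimension four (helper615)
-/

set_option autoImplicit false

namespace Pool.Agent.N615.FBZF3

open Pool.Agent.H241R3.FV Pool.Agent.N526.CP Pool.Agent.N979.CP Pool.Agent.N615.FB

theorem main : S_ZF3 := by
  intro s _ _
  rw [zf3_eq, int3 s]
  generalize (∫ u in (0 : ℝ)..1, u * Real.arcsin (s * u) * √(1 - u ^ 2)) = I
  have := Real.pi_pos.ne'
  field_simp
  ring

end Pool.Agent.N615.FBZF3
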