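import Pool.Agent.N404.KL.Stm2
import Pool.Agent.N401.KL_FOUR

/-!
# KL/SYM (helper615): Fourier expansion of a symmetric function on the cube
-/

set_option autoImplicit false

namespace Pool.Agent.N615.KLSYM

open Finset Classical
open Pool.Agent.N404.KL (sg ind)
open Pool.Agent.N401.KLFOUR (sg_not expand odd_zero amgm)

section

variable {J : Type} [Fintype J] [DecidableEq J]

/-- the Fourier coefficients -/
noncomputable def G (g : (J → Bool) → ℝ) (T : Finset J) : ℝ := ∑ e, g e * ∏ j ∈ T, sg (e j)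

/-- the coefficient of `ρ j ^ 2` -/
noncomputable def bet (g : (J → Bool) → ℝ) (j : J) : ℝ :=
  ∑ T : Finset J, if j ∈ T then G g T ^ 2 / T.card else 0

theorem upper (g : (J → Bool) → ℝ) (ρ : J → ℝ) (hg : ∀ e, g (fun j => !(e j)) = g e)
    (hρ : ∀ j, |ρ j| ≤ 1) :
    ∑ e, ∑ e', g e * g e' * ∏ j, (1 + ρ j * sg (e j) * sg (e' j)) ≤
      (∑ e, g e) ^ 2 + ∑ j, ρ j ^ 2 * bet g j := by
  rw [expand g ρ univ]
  have h1 : ∑ j, ρ j ^ 2 * bet g j =
      ∑ S ∈ (univ : Finset (Finset J)), (∑ j ∈ S, ρ j ^ 2) / S.card *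
        (∑ e, g e * ∏ k ∈ S, sg (e k)) ^ 2 := by
    unfold bet G
    simp_rw [Finset.mul_sum]
    rw [Finset.sum_comm]
    refine Finset.sum_congr rfl fun S _ => ?_
    simp_rw [mul_ite, mul_zero]
    rw [← Finset.sum_filter, Finset.filter_mem_eq_inter, Finset.univ_inter, Finset.sum_div,
      Finset.sum_mul]
    refine Finset.sum_congr rfl fun j _ => ?_
    ring
  rw [h1]
  have h2 : (∑ e, g e) ^ 2 = ∑ S ∈ (univ : Finset (Finset J)), if S = ∅ then
      (∑ e, g e * ∏ k ∈ S, sg (e k)) ^ 2 else 0 := by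
    rw [Finset.sum_ite_eq']
    simp
  rw [h2, ← Finset.sum_add_distrib, Finset.powerset_univ]
  refine Finset.sum_le_sum fun S _ => ?_
  rcases Nat.eq_zero_or_pos S.card with h0 | h0
  · have hS : S = ∅ := Finset.card_eq_zero.1 h0
    subst hS
    simp
  · have hS : S ≠ ∅ := by
      rintro rfl; simp at h0
    rw [if_neg hS, zero_add]
    rcases Nat.even_or_odd S.card with he | ho
    · have h2' : 2 ≤ S.card := by
        rcases he with ⟨k, hk⟩; omega
      exact mul_le_mul_of_nonneg_right (amgm S ρ hρ h2') (sq_nonneg _)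
    · rw [odd_zero g hg S ho]
      simp

/-- flipping a bit -/
theorem flip_invol (j : J) : Function.Involutive
    (fun e : J → Bool => Function.update e j (!(e j))) := by
  intro e
  funext i
  by_cases h : i = j
  · subst h; simp
  · simp [Function.update_of_ne h]

theorem G_out (g : (J → Bool) → ℝ) (j : J) (hg : ∀ e, g (Function.update e j (!(e j))) = g e)
    (T : Finset J) (hj : j ∈ T) : G g T = 0 := by
  unfold G
  have h1 : ∑ e, g e * ∏ i ∈ T, sg (e i) = ∑ e, g ((flip_invol j).toPerm _ e) *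
      ∏ i ∈ T, sg ((flip_invol j).toPerm _ e i) :=
    (Equiv.sum_comp ((flip_invol j).toPerm _) (fun e => g e * ∏ i ∈ T, sg (e i))).symm
  have h2 : ∀ e : J → Bool, g ((flip_invol j).toPerm _ e) *
      ∏ i ∈ T, sg ((flip_invol j).toPerm _ e i) = - (g e * ∏ i ∈ T, sg (e i)) := by
    intro e
    have h3 : ((flip_invol j).toPerm _ e) = Function.update e j (!(e j)) := rfl
    rw [h3, hg, ← Finset.mul_prod_erase T _ hj, ← Finset.mul_prod_erase T (fun i => sg (e i)) hj,
      Function.update_self, sg_not]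
    have h4 : ∏ i ∈ T.erase j, sg (Function.update e j (!(e j)) i) =
        ∏ i ∈ T.erase j, sg (e i) := by
      refine Finset.prod_congr rfl fun i hi => ?_
      rw [Function.update_of_ne (Finset.ne_of_mem_erase hi)]
    rw [h4]; ring
  simp_rw [h2] at h1
  rw [Finset.sum_neg_distrib] at h1
  linarith

theorem G_perm (g : (J → Bool) → ℝ) (σ : Equiv.Perm J) (hσ : ∀ e : J → Bool, g (fun i => e (σ i)) = g e)
    (T : Finset J) : G g (T.map σ.toEmbedding) = G g T := by
  unfold G
  have h1 : ∑ e, g e * ∏ i ∈ T, sg (e i) = ∑ e : J → Bool, g (fun i => e (σ i)) *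
      ∏ i ∈ T, sg (e (σ i)) :=
    (Equiv.sum_comp (Equiv.arrowCongr σ.symm (Equiv.refl Bool))
      (fun e => g e * ∏ i ∈ T, sg (e i))).symm
  rw [h1]
  refine Finset.sum_congr rfl fun e _ => ?_
  rw [hσ, Finset.prod_map]
  rfl

theorem bet_swap (g : (J → Bool) → ℝ) (j j' : J)
    (hσ : ∀ e : J → Bool, g (fun i => e (Equiv.swap j j' i)) = g e) : bet g j' = bet g j := by
  unfold bet
  rw [← Equiv.sum_comp (Equiv.swap j j').finsetCongr]
  refine Finset.sum_congr rfl fun T _ => ?_
  rw [Equiv.finsetCongr_apply, G_perm g _ hσ, Finset.card_map]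
  have h1 : j' ∈ T.map (Equiv.swap j j').toEmbedding ↔ j ∈ T := by
    rw [Finset.mem_map_equiv]
    simp
  simp only [h1]

/-- Parseval -/
theorem pars (g : (J → Bool) → ℝ) :
    ∑ T : Finset J, G g T ^ 2 = 2 ^ Fintype.card J * ∑ e, g e ^ 2 := by
  have h1 := expand g (fun _ => 1) univ
  simp only [Finset.prod_const_one, one_mul, Finset.powerset_univ] at h1
  unfold G
  rw [← h1, Finset.mul_sum]
  refine Finset.sum_congr rfl fun e _ => ?_
  rw [Finset.sum_eq_single e]
  · have h2 : ∀ j, (1 + sg (e j) * sg (e j)) = 2 := by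
      intro j
      cases e j <;> norm_num [sg]
    simp_rw [h2]
    rw [Finset.prod_const, Finset.card_univ]
    ring
  · intro e' _ hne
    obtain ⟨j, hj⟩ := Function.ne_iff.1 hne
    have h2 : ∏ j, (1 + sg (e j) * sg (e' j)) = 0 := by
      apply Finset.prod_eq_zero (Finset.mem_univ j)
      revert hj
      cases e j <;> cases e' j <;> simp [sg]
    rw [h2, mul_zero]
  · intro h; exact absurd (Finset.mem_univ _) h

end

theorem main : Pool.Agent.N404.KL.S_SYM := by
  intro J _ _ S K ρ hS hρ
  set g : (J → Bool) → ℝ := fun e => ind S K e with hg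
  have heven : ∀ e, g (fun j => !(e j)) = g e := by
    intro e
    simp only [hg, ind]
    have : ∑ j ∈ S, sg (!(e j)) = - ∑ j ∈ S, sg (e j) := by
      rw [← Finset.sum_neg_distrib]
      exact Finset.sum_congr rfl fun j _ => sg_not _
    rw [this, abs_neg]
  have hout : ∀ j, j ∉ S → ∀ e, g (Function.update e j (!(e j))) = g e := by
    intro j hj e
    simp only [hg, ind]
    have : ∑ i ∈ S, sg (Function.update e j (!(e j)) i) = ∑ i ∈ S, sg (e i) := by
      refine Finset.sum_congr rfl fun i hi => ?_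
      rw [Function.update_of_ne]
      rintro rfl
      exact hj hi
    rw [this]
  have hswap : ∀ j ∈ S, ∀ j' ∈ S, ∀ e : J → Bool, g (fun i => e (Equiv.swap j j' i)) = g e := by
    intro j hj j' hj' e
    simp only [hg, ind]
    have : ∑ i ∈ S, sg (e (Equiv.swap j j' i)) = ∑ i ∈ S, sg (e i) := by
      refine Finset.sum_equiv (Equiv.swap j j') (fun i => ?_) (fun i _ => rfl)
      rw [Equiv.swap_apply_def]
      split_ifs with h1 h2
      · rw [h1]; exact ⟨fun _ => hj', fun _ => hj⟩
      · rw [h2]; exact ⟨fun _ => hj, fun _ => hj'⟩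
      · rfl
    rw [this]
  have hsq : ∀ e, g e ^ 2 = g e := by
    intro e
    simp only [hg, ind]
    split_ifs <;> norm_num
  set P := ∑ e, g e with hP
  have hout2 : ∀ j, j ∉ S → bet g j = 0 := by
    intro j hj
    unfold bet
    apply Finset.sum_eq_zero
    intro T _
    split_ifs with h
    · rw [G_out g j (hout j hj) T h]; simp
    · rfl
  have hG0 : G g ∅ = P := by
    unfold G
    simp [hP]
  have htot : ∑ j ∈ S, bet g j = 2 ^ Fintype.card J * P - P ^ 2 := by
    have h1 : ∑ j ∈ S, bet g j = ∑ j, bet g j := by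
      apply Finset.sum_subset (Finset.subset_univ _)
      intro j _ hj
      exact hout2 j hj
    have h2 : ∑ j, bet g j = ∑ T : Finset J, (if T = ∅ then 0 else G g T ^ 2) := by
      unfold bet
      rw [Finset.sum_comm]
      refine Finset.sum_congr rfl fun T _ => ?_
      rw [← Finset.sum_filter, Finset.filter_mem_eq_inter, Finset.univ_inter, Finset.sum_const,
        nsmul_eq_mul]
      split_ifs with h
      · rw [h]; simp
      · have : (T.card : ℝ) ≠ 0 := by
          rw [Ne, Nat.cast_eq_zero, Finset.card_eq_zero]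
          exact h
        field_simp
    have h3 : ∑ T : Finset J, (if T = ∅ then 0 else G g T ^ 2) =
        ∑ T : Finset J, G g T ^ 2 - P ^ 2 := by
      have h4 : ∀ T : Finset J, (if T = ∅ then 0 else G g T ^ 2) =
          G g T ^ 2 - (if T = ∅ then G g T ^ 2 else 0) := by
        intro T
        split_ifs <;> ring
      simp_rw [h4]
      rw [Finset.sum_sub_distrib, Finset.sum_ite_eq', if_pos (Finset.mem_univ _), hG0]
    rw [h1, h2, h3, pars, Finset.sum_congr rfl fun e _ => hsq e]
  have hbet : ∀ j ∈ S, bet g j = (2 ^ Fintype.card J * P - P ^ 2) / S.card := by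
    intro j hj
    have hc : (S.card : ℝ) ≠ 0 := by
      rw [Ne, Nat.cast_eq_zero, Finset.card_eq_zero]
      exact hS.ne_empty
    rw [eq_div_iff hc, ← htot]
    rw [Finset.sum_congr rfl fun j' hj' => bet_swap g j j' (hswap j hj j' hj'), Finset.sum_const,
      nsmul_eq_mul]
    ring
  refine (upper g ρ heven hρ).trans ?_
  have h5 : ∑ j, ρ j ^ 2 * bet g j = (∑ j ∈ S, ρ j ^ 2) / S.card *
      (2 ^ Fintype.card J * P - P ^ 2) := by
    rw [← Finset.sum_subset (Finset.subset_univ S) (fun j _ hj => by rw [hout2 j hj, mul_zero]),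
      Finset.sum_congr rfl fun j hj => by rw [hbet j hj], ← Finset.sum_mul]
    ring
  rw [h5]

end Pool.Agent.N615.KLSYM
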