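import Pool.Agent.N657.QR.Stm

/-!
# Project QR (helper657), task CON (helper615)
-/

set_option autoImplicit false

namespace Pool.Agent.N615.QRCON

open Pool.Agent.N657.QR

section one

variable {V : Type} [Fintype V] [DecidableEq V]

theorem hop {w : V → V → ℝ} {x y : V}
    (h : Relation.ReflTransGen (fun a b => 0 < w a b ∨ 0 < w b a) x y) (n : V → ℤ) :
    Relation.ReflTransGen
      (fun a b : V → ℤ => ∃ x y, 0 < w x y ∧ (b = hp x y a ∨ b = hp y x a)) n (hp x y n) := by
  induction h with
  | refl =>
    have : hp x x n = n := by unfold hp; abel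
    rw [this]
  | @tail y z _ hyz ih =>
    refine ih.tail ?_
    have e : hp x z n = hp y z (hp x y n) := by unfold hp; abel
    rcases hyz with h1 | h1
    · exact ⟨y, z, h1, Or.inl e⟩
    · exact ⟨z, y, h1, Or.inr e⟩

theorem hp_apply (x y : V) (n : V → ℤ) (z : V) :
    hp x y n z = n z + (if z = x then 1 else 0) - (if z = y then 1 else 0) := by
  unfold hp dl
  rw [Pi.sub_apply, Pi.add_apply, Pi.single_apply, Pi.single_apply]

theorem tot_hp (x y : V) (n : V → ℤ) : tot (hp x y n) = tot n := by
  unfold tot
  simp_rw [hp_apply]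
  rw [Finset.sum_sub_distrib, Finset.sum_add_distrib]
  simp

theorem exists_lt {n n' : V → ℤ} (h : tot n = tot n') (hne : n ≠ n') : ∃ x, n x < n' x := by
  by_contra hc
  push Not at hc
  apply hne
  have h1 := (Finset.sum_eq_sum_iff_of_le (s := Finset.univ) (f := n') (g := n)
    (fun i _ => hc i)).1 (by unfold tot at h; exact h.symm)
  funext i
  exact (h1 i (Finset.mem_univ i)).symm

theorem conn {w : V → V → ℝ}
    (hw : ∀ x y, Relation.ReflTransGen (fun a b => 0 < w a b ∨ 0 < w b a) x y) : Conn w := by
  intro n n' h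
  obtain ⟨m, hm⟩ : ∃ m, ∑ x, (n' x - n x).natAbs = m := ⟨_, rfl⟩
  induction m using Nat.strong_induction_on generalizing n with
  | _ m ih =>
    by_cases hne : n = n'
    · rw [hne]
    obtain ⟨x, hx⟩ := exists_lt h hne
    obtain ⟨y, hy⟩ := exists_lt h.symm (Ne.symm hne)
    have hxy : x ≠ y := by
      rintro rfl
      omega
    refine (hop (hw x y) n).trans ?_
    apply ih (∑ z, (n' z - hp x y n z).natAbs) _ _ ((tot_hp x y n).trans h) rfl
    rw [← hm]
    apply Finset.sum_lt_sum
    · intro z _
      rw [hp_apply]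
      by_cases h1 : z = x
      · subst h1
        rw [if_pos rfl, if_neg hxy]
        omega
      · by_cases h2 : z = y
        · subst h2
          rw [if_pos rfl, if_neg h1]
          omega
        · rw [if_neg h1, if_neg h2]
          omega
    · refine ⟨x, Finset.mem_univ _, ?_⟩
      rw [hp_apply, if_pos rfl, if_neg hxy]
      omega

end one

section two

variable {d L : ℕ} [NeZero L]

theorem path_one {Q : (Fin d → ZMod L) → (Fin d → ZMod L) → Prop} (hQ : ∀ x i, Q x (x + ee i))
    (i : Fin d) (m : ℕ) (x : Fin d → ZMod L) : Relation.ReflTransGen Q x (x + m • ee i) := by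
  induction m with
  | zero => rw [zero_smul, add_zero]
  | succ m ih =>
    have e : x + (m + 1) • (ee i : Fin d → ZMod L) = (x + m • ee i) + ee i := by
      rw [add_smul, one_smul, add_assoc]
    rw [e]
    exact ih.tail (hQ _ _)

theorem path_all {Q : (Fin d → ZMod L) → (Fin d → ZMod L) → Prop} (hQ : ∀ x i, Q x (x + ee i))
    (m : Fin d → ℕ) (s : Finset (Fin d)) (x : Fin d → ZMod L) :
    Relation.ReflTransGen Q x (x + ∑ i ∈ s, m i • ee i) := by
  classical
  induction s using Finset.induction_on with
  | empty => rw [Finset.sum_empty, add_zero]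
  | insert i s hi ih =>
    have e : x + ∑ j ∈ insert i s, m j • (ee j : Fin d → ZMod L) =
        (x + ∑ j ∈ s, m j • ee j) + m i • ee i := by
      rw [Finset.sum_insert hi]
      abel
    rw [e]
    exact ih.trans (path_one hQ i (m i) _)

theorem decomp (z : Fin d → ZMod L) : z = ∑ i, (z i).val • (ee i : Fin d → ZMod L) := by
  funext j
  rw [Finset.sum_apply, Finset.sum_eq_single j]
  · unfold ee
    rw [Pi.smul_apply, Pi.single_eq_same, nsmul_eq_mul, mul_one, ZMod.natCast_zmod_val]
  · intro i _ hij
    unfold ee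
    rw [Pi.smul_apply, Pi.single_eq_of_ne (Ne.symm hij), smul_zero]
  · intro h; exact absurd (Finset.mem_univ _) h

theorem ee_inj (hL : 2 ≤ L) {i j : Fin d} (h : (ee i : Fin d → ZMod L) = ee j) : i = j := by
  by_contra hne
  have h1 := congrFun h i
  unfold ee at h1
  rw [Pi.single_eq_same, Pi.single_eq_of_ne hne] at h1
  haveI : Fact (1 < L) := ⟨hL⟩
  exact one_ne_zero h1

end two

theorem main : S_CON := by
  refine ⟨fun w hw => conn hw, ?_, ?_⟩
  · intro d L _ w hw x y
    have h := path_all (Q := fun a b => 0 < w a b ∨ 0 < w b a) (fun x i => Or.inl (hw x i))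
      (fun i => ((y - x) i).val) Finset.univ x
    rw [← decomp (y - x), add_sub_cancel] at h
    exact h
  · intro d L _ J w hL hw hJ x y
    unfold nnw
    by_cases h : ∃ i : Fin d, y = x + ee i
    · obtain ⟨i, hi⟩ := h
      rw [Finset.sum_eq_single i]
      · rw [if_pos hi, hi]
        exact hJ x i
      · intro j _ hj
        rw [if_neg]
        intro h'
        rw [hi] at h'
        exact hj (ee_inj hL (add_left_cancel h')).symm
      · intro h'; exact absurd (Finset.mem_univ _) h'
    · push Not at h
      rw [Finset.sum_eq_zero fun i _ => if_neg (h i)]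
      exact hw x y

end Pool.Agent.N615.QRCON
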