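import Pool.Agent.N657.QR.Stm

/-!
# Project QR (helper657), task EX (helper615)
-/

set_option autoImplicit false

namespace Pool.Agent.N615.QREX

open Filter Topology Pool.Agent.N657.QR

theorem main (hB : S_BAS) (hC : S_CPT) : S_EX := by
  intro V _ _ _ K w ν N hK hw
  have h := fun k : ℕ => hB.enex K w ν N (1 / ((k : ℝ) + 1)) hK.posSemidef hw (by positivity)
  choose f h1 h2 h3 h4 using h
  have hlow : ∀ k, en K w ν N ≤ FF K w ν (f k) := by
    intro k
    have := hB.enle K w ν N (f k) hK.posSemidef hw (h1 k) (h2 k)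
    rwa [h3 k, mul_one] at this
  have hlim : Tendsto (fun k => FF K w ν (f k)) atTop (𝓝 (en K w ν N)) := by
    refine tendsto_of_tendsto_of_tendsto_of_le_of_le (g := fun _ => en K w ν N)
      (h := fun k : ℕ => en K w ν N + 1 / ((k : ℝ) + 1)) tendsto_const_nhds ?_ hlow
      (fun k => (h4 k).le)
    have h5 : Tendsto (fun k : ℕ => en K w ν N + 1 / ((k : ℝ) + 1)) atTop
        (𝓝 (en K w ν N + 0)) := tendsto_one_div_add_atTop_nhds_zero_nat.const_add _
    rwa [add_zero] at h5
  obtain ⟨Φ, hΦ, _⟩ := hC K w ν N f hK hw (fun k => hB.fsFE _ (h1 k)) h2 h3 hlim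
  exact ⟨Φ, hΦ⟩

end Pool.Agent.N615.QREX
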