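import Pool.Agent.N657.QR.Stm

/-!
# Project QR (helper657), task LAT (helper615): the lattice sum

`1 / sqrt (lam k)` is bounded by a product of functions of two coordinates.
-/

set_option autoImplicit false

namespace Pool.Agent.N615.QRLAT

open Pool.Agent.N657.QR

/-- one coordinate -/
theorem cos_bd {L m : ℝ} (hL : 0 < L) (h0 : 0 ≤ m) (h1 : m ≤ L) :
    16 * (min m (L - m)) ^ 2 / L ^ 2 ≤ 2 - 2 * Real.cos (2 * Real.pi * m / L) := by
  have key : ∀ x : ℝ, 0 ≤ x → x ≤ L - x →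
      16 * x ^ 2 / L ^ 2 ≤ 2 - 2 * Real.cos (2 * Real.pi * x / L) := by
    intro x hx hxL
    have hpi := Real.pi_pos
    have e : 2 * Real.pi * x / L = 2 * (Real.pi * x / L) := by ring
    have h2 : 0 ≤ Real.pi * x / L := by positivity
    have h3 : Real.pi * x / L ≤ Real.pi / 2 := by
      rw [div_le_div_iff₀ hL (by norm_num)]
      nlinarith
    have h4 := Real.mul_le_sin h2 h3
    have h5 : 2 / Real.pi * (Real.pi * x / L) = 2 * x / L := by field_simp
    rw [h5] at h4
    have h6 : 0 ≤ 2 * x / L := by positivity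
    have h7 : (2 * x / L) ^ 2 ≤ Real.sin (Real.pi * x / L) ^ 2 := pow_le_pow_left₀ h6 h4 2
    rw [e, Real.cos_two_mul]
    have h8 := Real.sin_sq_add_cos_sq (Real.pi * x / L)
    have h9 : 16 * x ^ 2 / L ^ 2 = 4 * (2 * x / L) ^ 2 := by ring
    rw [h9]
    linarith
  rcases le_total m (L - m) with h | h
  · rw [min_eq_left h]
    exact key m h0 h
  · rw [min_eq_right h]
    have h2 := key (L - m) (by linarith) (by linarith)
    have e : 2 * Real.pi * (L - m) / L = 2 * Real.pi - 2 * Real.pi * m / L := by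
      field_simp
    rw [e, Real.cos_two_pi_sub] at h2
    exact h2

theorem sum_sqrt (L : ℕ) : ∑ m ∈ Finset.range L, 1 / Real.sqrt ((m : ℝ) + 1) ≤ 2 * Real.sqrt L := by
  induction L with
  | zero => simp
  | succ L ih =>
    rw [Finset.sum_range_succ]
    push_cast
    have h1 : 0 < Real.sqrt ((L : ℝ) + 1) := Real.sqrt_pos.2 (by positivity)
    have h2 : Real.sqrt (L : ℝ) ≤ Real.sqrt ((L : ℝ) + 1) := Real.sqrt_le_sqrt (by linarith)
    have h3 : Real.sqrt ((L : ℝ) + 1) ^ 2 = (L : ℝ) + 1 := Real.sq_sqrt (by positivity)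
    have h4 : Real.sqrt (L : ℝ) ^ 2 = (L : ℝ) := Real.sq_sqrt (by positivity)
    have h5 : 1 / Real.sqrt ((L : ℝ) + 1) ≤ 2 * Real.sqrt ((L : ℝ) + 1) - 2 * Real.sqrt L := by
      rw [div_le_iff₀ h1]
      nlinarith [Real.sqrt_nonneg (L : ℝ)]
    linarith

section

variable {L : ℕ} [NeZero L]

/-- the distance to zero -/
noncomputable def mu (t : ZMod L) : ℝ := min (t.val : ℝ) ((L : ℝ) - t.val)

theorem val_le (t : ZMod L) : (t.val : ℝ) ≤ (L : ℝ) - 1 := by
  have h := ZMod.val_lt t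
  have h2 : t.val + 1 ≤ L := h
  have h3 : ((t.val + 1 : ℕ) : ℝ) ≤ (L : ℝ) := by exact_mod_cast h2
  push_cast at h3
  linarith

theorem mu_nn (t : ZMod L) : 0 ≤ mu t := by
  have := val_le t
  unfold mu
  exact le_min (Nat.cast_nonneg _) (by linarith)

theorem mu_one {t : ZMod L} (h : t ≠ 0) : 1 ≤ mu t := by
  have := val_le t
  unfold mu
  refine le_min ?_ (by linarith)
  have h1 : t.val ≠ 0 := by
    rw [Ne, ZMod.val_eq_zero]
    exact h
  exact_mod_cast Nat.one_le_iff_ne_zero.2 h1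

theorem sum_val (F : ℕ → ℝ) : ∑ t : ZMod L, F t.val = ∑ m ∈ Finset.range L, F m := by
  refine Finset.sum_nbij' (fun t => t.val) (fun m => (m : ZMod L)) ?_ ?_ ?_ ?_ ?_
  · intro t _
    exact Finset.mem_range.2 (ZMod.val_lt t)
  · intro m _
    exact Finset.mem_univ _
  · intro t _
    exact ZMod.natCast_zmod_val t
  · intro m hm
    exact ZMod.val_cast_of_lt (Finset.mem_range.1 hm)
  · intro t _
    rfl

theorem sum_mu : ∑ t : ZMod L, 1 / Real.sqrt (1 + mu t) ≤ 4 * Real.sqrt L := by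
  have h1 : ∀ t : ZMod L, 1 / Real.sqrt (1 + mu t) ≤
      1 / Real.sqrt ((t.val : ℝ) + 1) + 1 / Real.sqrt (((L - 1 - t.val : ℕ) : ℝ) + 1) := by
    intro t
    have hv := val_le t
    have hlt := ZMod.val_lt t
    have e : ((L - 1 - t.val : ℕ) : ℝ) = (L : ℝ) - 1 - t.val := by
      rw [Nat.cast_sub (by omega), Nat.cast_sub (by omega)]
      push_cast
      ring
    have hv0 : (0 : ℝ) ≤ t.val := Nat.cast_nonneg _
    unfold mu
    rcases le_total (t.val : ℝ) ((L : ℝ) - t.val) with h | h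
    · rw [min_eq_left h, add_comm (1 : ℝ)]
      have : 0 ≤ 1 / Real.sqrt (((L - 1 - t.val : ℕ) : ℝ) + 1) := by positivity
      linarith
    · rw [min_eq_right h, e]
      have h2 : 0 ≤ 1 / Real.sqrt ((t.val : ℝ) + 1) := by positivity
      have h3 : 1 / Real.sqrt (1 + ((L : ℝ) - t.val)) ≤ 1 / Real.sqrt ((L : ℝ) - 1 - t.val + 1) := by
        apply one_div_le_one_div_of_le
        · apply Real.sqrt_pos.2; linarith
        · apply Real.sqrt_le_sqrt; linarith
      linarith
  calc ∑ t : ZMod L, 1 / Real.sqrt (1 + mu t) ≤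
        ∑ t : ZMod L, (1 / Real.sqrt ((t.val : ℝ) + 1) +
          1 / Real.sqrt (((L - 1 - t.val : ℕ) : ℝ) + 1)) := Finset.sum_le_sum fun t _ => h1 t
    _ = ∑ m ∈ Finset.range L, 1 / Real.sqrt ((m : ℝ) + 1) +
          ∑ m ∈ Finset.range L, 1 / Real.sqrt (((L - 1 - m : ℕ) : ℝ) + 1) := by
        rw [Finset.sum_add_distrib, sum_val (fun m => 1 / Real.sqrt ((m : ℝ) + 1)),
          sum_val (fun m => 1 / Real.sqrt (((L - 1 - m : ℕ) : ℝ) + 1))]
    _ = ∑ m ∈ Finset.range L, 1 / Real.sqrt ((m : ℝ) + 1) +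
          ∑ m ∈ Finset.range L, 1 / Real.sqrt ((m : ℝ) + 1) := by
        rw [Finset.sum_range_reflect (fun m => 1 / Real.sqrt ((m : ℝ) + 1)) L]
    _ ≤ 4 * Real.sqrt L := by
        have := sum_sqrt L
        linarith

variable {d : ℕ}

/-- the bound for one momentum -/
theorem one_k {i₀ i₁ : Fin d} (hi : i₀ ≠ i₁) {k : Fin d → ZMod L} (hk : k ≠ 0) :
    1 / Real.sqrt (lam k) ≤ 1 / 2 * ((Real.sqrt L / Real.sqrt (1 + mu (k i₀))) *
      (Real.sqrt L / Real.sqrt (1 + mu (k i₁)))) := by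
  have hL : (0 : ℝ) < L := by exact_mod_cast Nat.pos_of_ne_zero (NeZero.ne L)
  set a := mu (k i₀) with ha
  set b := mu (k i₁) with hb
  have ha0 : 0 ≤ a := mu_nn _
  have hb0 : 0 ≤ b := mu_nn _
  set S := ∑ i, mu (k i) ^ 2 with hS
  have h1 : 16 * S / L ^ 2 ≤ lam k := by
    unfold lam
    rw [hS, Finset.mul_sum, Finset.sum_div]
    apply Finset.sum_le_sum
    intro i _
    have hv := val_le (k i)
    exact cos_bd hL (Nat.cast_nonneg _) (by linarith)
  have h2 : 1 ≤ S := by
    obtain ⟨i, hi'⟩ := Function.ne_iff.1 hk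
    have h3 : mu (k i) ^ 2 ≤ S :=
      Finset.single_le_sum (f := fun i => mu (k i) ^ 2) (fun j _ => sq_nonneg _)
        (Finset.mem_univ i)
    have h4 := mu_one (show k i ≠ 0 from hi')
    nlinarith
  have h3 : a ^ 2 + b ^ 2 ≤ S := by
    have h4 : ∑ i ∈ ({i₀, i₁} : Finset (Fin d)), mu (k i) ^ 2 ≤ S :=
      Finset.sum_le_sum_of_subset_of_nonneg (Finset.subset_univ _) (fun j _ _ => sq_nonneg _)
    rwa [Finset.sum_pair hi] at h4
  have h4 : (1 + a) * (1 + b) ≤ 4 * S := by
    nlinarith [sq_nonneg (a - b), sq_nonneg (a - 1), sq_nonneg (b - 1)]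
  have h5 : 4 * ((1 + a) * (1 + b)) / L ^ 2 ≤ lam k := by
    refine le_trans ?_ h1
    apply div_le_div_of_nonneg_right _ (by positivity)
    linarith
  have hA : 0 < Real.sqrt (1 + a) := Real.sqrt_pos.2 (by linarith)
  have hB : 0 < Real.sqrt (1 + b) := Real.sqrt_pos.2 (by linarith)
  have hLs : Real.sqrt L * Real.sqrt L = L := Real.mul_self_sqrt hL.le
  have h6 : 2 * (Real.sqrt (1 + a) * Real.sqrt (1 + b)) / L ≤ Real.sqrt (lam k) := by
    apply Real.le_sqrt_of_sq_le
    refine le_trans (le_of_eq ?_) h5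
    rw [div_pow, mul_pow, mul_pow, Real.sq_sqrt (by linarith), Real.sq_sqrt (by linarith)]
    norm_num
  have h7 : 0 < 2 * (Real.sqrt (1 + a) * Real.sqrt (1 + b)) / L := by positivity
  calc 1 / Real.sqrt (lam k) ≤ 1 / (2 * (Real.sqrt (1 + a) * Real.sqrt (1 + b)) / L) :=
        one_div_le_one_div_of_le h7 h6
    _ = 1 / 2 * (L / (Real.sqrt (1 + a) * Real.sqrt (1 + b))) := by
        field_simp
    _ = 1 / 2 * ((Real.sqrt L / Real.sqrt (1 + a)) * (Real.sqrt L / Real.sqrt (1 + b))) := by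
        have e : (Real.sqrt L / Real.sqrt (1 + a)) * (Real.sqrt L / Real.sqrt (1 + b)) =
            L / (Real.sqrt (1 + a) * Real.sqrt (1 + b)) := by
          rw [div_mul_div_comm (Real.sqrt L), hLs]
        rw [e]

end

theorem main : S_LAT := by
  intro d hd
  refine ⟨8, by norm_num, ?_⟩
  intro L _
  have hL : (0 : ℝ) < L := by exact_mod_cast Nat.pos_of_ne_zero (NeZero.ne L)
  let i₀ : Fin d := ⟨0, by omega⟩
  let i₁ : Fin d := ⟨1, by omega⟩
  have hi : i₀ ≠ i₁ := by
    intro h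
    have := congrArg Fin.val h
    simp [i₀, i₁] at this
  set h : ZMod L → ℝ := fun t => Real.sqrt L / Real.sqrt (1 + mu t) with hh
  have hpos : ∀ t, 0 ≤ h t := fun t => by
    simp only [hh]
    positivity
  set F : Fin d → ZMod L → ℝ := fun i t => (if i = i₀ then h t else 1) *
    (if i = i₁ then h t else 1) with hF
  have hFnn : ∀ i t, 0 ≤ F i t := by
    intro i t
    simp only [hF]
    apply mul_nonneg <;> split_ifs <;> first | exact hpos t | exact zero_le_one
  have hFprod : ∀ k : Fin d → ZMod L, ∏ i, F i (k i) = h (k i₀) * h (k i₁) := by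
    intro k
    simp only [hF]
    rw [Finset.prod_mul_distrib, Finset.prod_ite_eq' Finset.univ i₀ (fun i => h (k i)),
      Finset.prod_ite_eq' Finset.univ i₁ (fun i => h (k i)), if_pos (Finset.mem_univ _),
      if_pos (Finset.mem_univ _)]
  have hsum_h : ∑ t, h t ≤ 4 * L := by
    have h1 : ∑ t, h t = Real.sqrt L * ∑ t : ZMod L, 1 / Real.sqrt (1 + mu t) := by
      rw [Finset.mul_sum]
      refine Finset.sum_congr rfl fun t _ => ?_
      simp only [hh]
      ring
    rw [h1]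
    calc Real.sqrt L * ∑ t : ZMod L, 1 / Real.sqrt (1 + mu t) ≤ Real.sqrt L * (4 * Real.sqrt L) :=
          mul_le_mul_of_nonneg_left sum_mu (Real.sqrt_nonneg _)
      _ = 4 * (Real.sqrt L * Real.sqrt L) := by ring
      _ = 4 * L := by rw [Real.mul_self_sqrt hL.le]
  have hone : ∑ _t : ZMod L, (1 : ℝ) = L := by
    rw [Finset.sum_const, Finset.card_univ, ZMod.card, nsmul_eq_mul, mul_one]
  set c : Fin d → ℝ := fun i => (if i = i₀ then 4 else 1) * (if i = i₁ then 4 else 1) with hc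
  have hFsum : ∀ i, ∑ t, F i t ≤ c i * L := by
    intro i
    simp only [hF, hc]
    by_cases h0 : i = i₀
    · have h1 : ¬ i = i₁ := fun h' => hi (h0.symm.trans h')
      simp only [if_pos h0, if_neg h1, mul_one]
      exact hsum_h
    · by_cases h1 : i = i₁
      · simp only [if_neg h0, if_pos h1, one_mul]
        exact hsum_h
      · simp only [if_neg h0, if_neg h1, mul_one, one_mul]
        exact hone.le
  have hcprod : ∏ i, c i = 16 := by
    simp only [hc]
    rw [Finset.prod_mul_distrib, Finset.prod_ite_eq' Finset.univ i₀ (fun _ => (4 : ℝ)),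
      Finset.prod_ite_eq' Finset.univ i₁ (fun _ => (4 : ℝ)), if_pos (Finset.mem_univ _),
      if_pos (Finset.mem_univ _)]
    norm_num
  have hcard : (Fintype.card (Fin d → ZMod L) : ℝ) = (L : ℝ) ^ d := by
    rw [Fintype.card_fun, ZMod.card, Fintype.card_fin]
    push_cast
    rfl
  have hprod : ∑ k : Fin d → ZMod L, ∏ i, F i (k i) ≤ 16 * (L : ℝ) ^ d := by
    have h1 := Finset.prod_univ_sum (fun _ : Fin d => (Finset.univ : Finset (ZMod L))) F
    rw [Fintype.piFinset_univ] at h1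
    rw [← h1]
    calc ∏ i, ∑ t, F i t ≤ ∏ i, c i * L :=
          Finset.prod_le_prod (fun i _ => Finset.sum_nonneg fun t _ => hFnn i t)
            (fun i _ => hFsum i)
      _ = 16 * (L : ℝ) ^ d := by
          rw [Finset.prod_mul_distrib, hcprod, Finset.prod_const, Finset.card_univ,
            Fintype.card_fin]
  calc ∑ k ∈ (Finset.univ : Finset (Fin d → ZMod L)).erase 0, 1 / Real.sqrt (lam k) ≤
        ∑ k ∈ (Finset.univ : Finset (Fin d → ZMod L)).erase 0, 1 / 2 * ∏ i, F i (k i) := by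
        apply Finset.sum_le_sum
        intro k hk
        rw [hFprod]
        exact one_k hi (Finset.ne_of_mem_erase hk)
    _ ≤ ∑ k : Fin d → ZMod L, 1 / 2 * ∏ i, F i (k i) := by
        apply Finset.sum_le_sum_of_subset_of_nonneg (Finset.erase_subset _ _)
        intro k _ _
        have : 0 ≤ ∏ i, F i (k i) := Finset.prod_nonneg fun i _ => hFnn i _
        positivity
    _ = 1 / 2 * ∑ k : Fin d → ZMod L, ∏ i, F i (k i) := by rw [Finset.mul_sum]
    _ ≤ 1 / 2 * (16 * (L : ℝ) ^ d) := mul_le_mul_of_nonneg_left hprod (by norm_num)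
    _ = 8 * (Fintype.card (Fin d → ZMod L) : ℝ) := by rw [hcard]; ring

end Pool.Agent.N615.QRLAT
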