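import Pool.Agent.N657.QR.Stm

/-!
# Project QR (helper657), task LB (helper615)
-/

set_option autoImplicit false

namespace Pool.Agent.N615.QRLB

open Filter Topology Pool.Agent.N657.QR

theorem main (hB : S_BAS) (hA : S_APP) : S_LB := by
  intro V _ _ _ K w ν N ψ hK hw hFE hS
  obtain ⟨f, h1, h2, h3, h4, h5, h6, h7⟩ := hA ψ hFE
  have hlim : Tendsto (fun k => FF K w ν (f k)) atTop (𝓝 (FF K w ν ψ)) := by
    unfold FF
    apply (h5 K ν).sub
    apply tendsto_finsetSum
    intro x _
    apply tendsto_finsetSum
    intro y _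
    exact (h6 x y).const_mul _
  have hS' : ∀ k, Sec N (f k) := by
    intro k n hn
    rcases h2 k n with h | h
    · exact hS n (by rw [← h]; exact hn)
    · exact absurd h hn
  exact le_of_tendsto_of_tendsto' (h3.const_mul _) hlim
    (fun k => hB.enle K w ν N (f k) hK hw (h1 k) (hS' k))

end Pool.Agent.N615.QRLB
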