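import Pool.Agent.N795.SO.Stm
import Pool.Agent.TH268.PD.Drift

/-!
# SO (helper795), ELL: the total effect of a transposition on the Laplace transforms

Written by helper615.
-/

set_option autoImplicit false
set_option linter.unusedSectionVars false

namespace Pool.Agent.N795.SO

open Finset Equiv
open Pool.Agent.W805.LR (len cnt)
open Pool.Agent.TH268.PD
open Pool.Agent.TH268.PD.Drift

namespace N615Ell

variable {V : Type} [Fintype V] [DecidableEq V]

/-- Merging two cycles does not decrease the lengths. -/
lemma len_le (g : Perm V) (a b : V) (h : ¬ g.SameCycle a b) (v : V) :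
    len g v ≤ len (g * swap a b) v := by
  classical
  have h' : ¬ (g⁻¹).SameCycle a b := fun h1 => h (Perm.sameCycle_inv.1 h1)
  obtain ⟨h1, h2, -⟩ := Pool.Agent.W333.LR.main_merge V g⁻¹ a b h'
  have hin : ∀ v, (g.SameCycle a v ∨ g.SameCycle b v) →
      len (g * swap a b) v = len g a + len g b := by
    intro v hv
    rw [len_mul_swap, h1 v (hv.imp Perm.sameCycle_inv.2 Perm.sameCycle_inv.2), len_inv, len_inv]
  have hout : ∀ v, ¬ g.SameCycle a v → ¬ g.SameCycle b v →
      len (g * swap a b) v = len g v := by
    intro v hv1 hv2
    rw [len_mul_swap, h2 v (fun h3 => hv1 (Perm.sameCycle_inv.1 h3))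
      (fun h3 => hv2 (Perm.sameCycle_inv.1 h3)), len_inv]
  by_cases ha : g.SameCycle a v
  · have e := MassSwap.len_congr ha
    have := hin v (Or.inl ha)
    have := len_nonneg g b
    linarith
  · by_cases hb : g.SameCycle b v
    · have e := MassSwap.len_congr hb
      have := hin v (Or.inr hb)
      have := len_nonneg g a
      linarith
    · exact (hout v ha hb).ge

/-- The effect of a merger. -/
lemma merge (x : ℝ) (hx : 0 < x) (g : Perm V) (a b : V) (h : ¬ g.SameCycle a b) :
    ∑ y, |Real.exp (-(x * len (g * swap a b) y)) - Real.exp (-(x * len g y))| ≤ 1 / x := by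
  have h1 : ∀ y, |Real.exp (-(x * len (g * swap a b) y)) - Real.exp (-(x * len g y))| =
      Real.exp (-(x * len g y)) - Real.exp (-(x * len (g * swap a b) y)) := by
    intro y
    have h2 : Real.exp (-(x * len (g * swap a b) y)) ≤ Real.exp (-(x * len g y)) := by
      apply Real.exp_le_exp.2
      have := mul_le_mul_of_nonneg_left (len_le g a b h y) hx.le
      linarith
    rw [abs_of_nonpos (by linarith)]
    ring
  have h3 := merge_sum (fun l => Real.exp (-(x * l))) g a b h
  rw [sum_congr rfl fun y _ => h1 y, sum_sub_distrib]
  have h4 := p_exp_le hx (len g a)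
  have h5 := p_exp_le hx (len g b)
  have h6 : 0 ≤ (len g a + len g b) * Real.exp (-(x * (len g a + len g b))) :=
    mul_nonneg (add_nonneg (len_nonneg g a) (len_nonneg g b)) (Real.exp_pos _).le
  have h7 : 1 / (2 * x) + 1 / (2 * x) = 1 / x := by
    field_simp
    norm_num
  linarith

end N615Ell

open N615Ell in
theorem ell : Ell := by
  intro V _ _ x g u v hx
  have hx1 : 1 / x ≤ 2 / x := div_le_div_of_nonneg_right (by norm_num) hx.le
  refine le_trans ?_ hx1
  by_cases h : g.SameCycle u v
  · by_cases hne : u = v
    · subst hne
      simp only [swap_self]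
      have e : (Equiv.refl V : Perm V) = 1 := rfl
      rw [e, mul_one]
      simp only [sub_self, abs_zero, sum_const_zero]
      positivity
    · have h1 := merge x hx (g * swap u v) u v (not_same g u v hne h)
      rw [mul_assoc, swap_mul_self, mul_one] at h1
      simp only [abs_sub_comm] at h1 ⊢
      first
        | exact h1
        | (refine le_trans (le_of_eq (sum_congr rfl fun y _ => abs_sub_comm _ _)) h1)
  · exact merge x hx g u v h

end Pool.Agent.N795.SO
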