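import Mathlib
import Pool.Agent.W820.TW.FE

/-! Task GROWTH (MP_7193be_nt, owner helper880): analytic consequences of the functional equation
of weight 2 in the wide strips `(1 - n) / 2 ≤ Re s ≤ (n + 1) / 2`, uniform in the conductor.
Adapted from `Pool.Agent.W820.TW.FE`. -/

set_option autoImplicit false

open Complex Filter Topology Set MeasureTheory Asymptotics
open H370.DL (refl hasDerivAt_refl analyticAt_refl im_osc re_osc eventually_im_ne
  ne_neg_nat_of_im logDeriv_refl order_refl)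
open W388 (GG FE2)
open Pool.Agent.W820.TW

namespace Pool.Agent.N615.Wide

/-- crude bound for the reciprocal of the Gamma function in half-planes -/
theorem inv_Gamma_wide (m : ℕ) : ∃ M D : ℝ, 0 ≤ M ∧ 0 ≤ D ∧ ∀ z : ℂ,
    -(m : ℝ) - 1 / 2 ≤ z.re → 1 ≤ |z.im| →
    ‖(Complex.Gamma z)⁻¹‖ ≤ M * Real.exp (D * |z.im|) := by
  obtain ⟨M, hM0, hM⟩ := inv_Gamma_le
  induction m with
  | zero =>
    refine ⟨M, Real.pi, hM0, Real.pi_pos.le, fun z h1 h3 => hM z ?_ h3⟩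
    simp at h1
    linarith
  | succ m ih =>
    obtain ⟨M', D', hM'0, hD'0, h⟩ := ih
    refine ⟨M + M' * ((m : ℝ) + 3), Real.pi + D' + 1, by positivity,
      by have := Real.pi_pos; positivity, ?_⟩
    intro z h1 h3
    have hm0 : (0 : ℝ) ≤ m := Nat.cast_nonneg m
    have hE0 := (Real.exp_pos ((Real.pi + D' + 1) * |z.im|)).le
    have hK0 : 0 ≤ M' * ((m : ℝ) + 3) := by positivity
    rcases le_or_gt (-1 / 2) z.re with h4 | h4
    · have hE1 : Real.exp (Real.pi * |z.im|) ≤ Real.exp ((Real.pi + D' + 1) * |z.im|) := by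
        apply Real.exp_le_exp.mpr
        apply mul_le_mul_of_nonneg_right _ (abs_nonneg _)
        linarith
      calc ‖(Complex.Gamma z)⁻¹‖ ≤ M * Real.exp (Real.pi * |z.im|) := hM z h4 h3
        _ ≤ M * Real.exp ((Real.pi + D' + 1) * |z.im|) := by gcongr
        _ ≤ _ := by
          apply mul_le_mul_of_nonneg_right _ hE0
          linarith
    · have hz0 : z ≠ 0 := by
        intro h'; rw [h'] at h3; simp at h3; linarith
      have hG : Complex.Gamma (z + 1) = z * Complex.Gamma z := Complex.Gamma_add_one z hz0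
      have hGi : (Complex.Gamma z)⁻¹ = z * (Complex.Gamma (z + 1))⁻¹ := by
        rw [hG, mul_inv, ← mul_assoc, mul_inv_cancel₀ hz0, one_mul]
      have e1 : (z + 1).re = z.re + 1 := by simp
      have e2 : (z + 1).im = z.im := by simp
      push_cast at h1
      have h5 := h (z + 1) (by rw [e1]; linarith) (by rw [e2]; exact h3)
      rw [e2] at h5
      have h6 : ‖z‖ ≤ ((m : ℝ) + 3) * Real.exp |z.im| := by
        refine (norm_le_abs_re_add_abs_im z).trans ?_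
        have h7 : |z.re| ≤ (m : ℝ) + 3 / 2 := by
          rw [abs_le]; constructor <;> linarith
        have h8 := Real.add_one_le_exp |z.im|
        have h9 : 1 ≤ Real.exp |z.im| := Real.one_le_exp (abs_nonneg _)
        nlinarith
      rw [hGi, norm_mul]
      have h10 : Real.exp |z.im| * Real.exp (D' * |z.im|) ≤
          Real.exp ((Real.pi + D' + 1) * |z.im|) := by
        rw [← Real.exp_add]
        apply Real.exp_le_exp.mpr
        have := mul_nonneg Real.pi_pos.le (abs_nonneg z.im)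
        linarith
      calc ‖z‖ * ‖(Complex.Gamma (z + 1))⁻¹‖
          ≤ (((m : ℝ) + 3) * Real.exp |z.im|) * (M' * Real.exp (D' * |z.im|)) := by gcongr
        _ = (M' * ((m : ℝ) + 3)) * (Real.exp |z.im| * Real.exp (D' * |z.im|)) := by ring
        _ ≤ (M' * ((m : ℝ) + 3)) * Real.exp ((Real.pi + D' + 1) * |z.im|) := by gcongr
        _ ≤ _ := by
          apply mul_le_mul_of_nonneg_right _ hE0
          linarith

/-- the digamma function in wide vertical strips -/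
theorem digamma_wide (b : ℝ) (hb : 1 / 2 ≤ b) (m : ℕ) : ∃ C : ℝ, 0 ≤ C ∧ ∀ w : ℂ,
    -(m : ℝ) - 1 / 2 ≤ w.re → w.re ≤ b → 1 ≤ |w.im| →
    ‖logDeriv Gamma w - Real.log |w.im|‖ ≤ C := by
  obtain ⟨C0, hC0, hC⟩ := digamma_strip b
  induction m with
  | zero =>
    refine ⟨C0, hC0, fun w h1 h2 h3 => hC w ?_ h2 h3⟩
    simp at h1
    linarith
  | succ m ih =>
    obtain ⟨C', hC'0, h⟩ := ih
    refine ⟨C0 + (C' + C0 + 1), by positivity, ?_⟩
    intro w h1 h2 h3
    push_cast at h1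
    rcases le_or_gt (-1 / 2) w.re with h4 | h4
    · have := hC w h4 h2 h3
      linarith
    · have hw : ∀ m : ℕ, w ≠ -m := by
        intro m h
        rw [h] at h3
        simp at h3
        linarith
      have e := digamma_apply_add_one w hw
      rw [digamma_def] at e
      have h5 : (w + 1).im = w.im := by simp
      have e1 : (w + 1).re = w.re + 1 := by simp
      have h6 : ‖logDeriv Gamma (w + 1) - Real.log |(w + 1).im|‖ ≤ C' + C0 := by
        have := h (w + 1) (by rw [e1]; linarith) (by rw [e1]; linarith) (by rw [h5]; exact h3)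
        linarith
      rw [e, h5] at h6
      have h8 : ‖w⁻¹‖ ≤ 1 := by
        rw [norm_inv]
        exact inv_le_one_of_one_le₀ (h3.trans (abs_im_le_norm w))
      have h9 : logDeriv Gamma w - Real.log |w.im| =
          (logDeriv Gamma w + w⁻¹ - Real.log |w.im|) - w⁻¹ := by ring
      rw [h9]
      refine (norm_sub_le _ _).trans ?_
      linarith

/-- product formula for the Gamma function -/
theorem Gamma_add_nat (u : ℂ) (hu : u.im ≠ 0) (n : ℕ) :
    Gamma (u + n) = (∏ j ∈ Finset.range n, (u + j)) * Gamma u := by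
  induction n with
  | zero => simp
  | succ n ih =>
    have h0 : u + n ≠ 0 := by
      intro h
      apply hu
      have := congrArg Complex.im h
      simpa using this
    have e : u + ((n + 1 : ℕ) : ℂ) = (u + n) + 1 := by push_cast; ring
    rw [e, Complex.Gamma_add_one _ h0, ih, Finset.prod_range_succ]
    ring

/-- size of the factor on the line `Re s = (1 - n) / 2`, weight two -/
theorem norm_LX_wide (n : ℕ) (hn : 2 ≤ n) (w : ℂ) (hw : ‖w‖ = 1) (κ : ℝ) (hκ : 0 < κ) {s : ℂ}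
    (hre : s.re = (1 - (n : ℝ)) / 2) (hs : s.im ≠ 0) :
    ‖LX w κ (1 / 2) s‖ ≤ κ ^ n * ((n : ℝ) / 2 + |s.im|) ^ n := by
  have hn2 : (2 : ℝ) ≤ n := by exact_mod_cast hn
  have him2 : (s + ((1 / 2 : ℝ) : ℂ)).im ≠ 0 := by simpa using hs
  have hg2 := Gamma_ne_zero (ne_neg_nat_of_im him2)
  set u : ℂ := (starRingEnd ℂ) (s + ((1 / 2 : ℝ) : ℂ)) with hu
  have hure : u.re = 1 - (n : ℝ) / 2 := by
    rw [hu, conj_re, add_re, hre, ofReal_re]; ring
  have huim : u.im = - s.im := by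
    rw [hu, conj_im, add_im, ofReal_im, add_zero]
  have e1 : (1 + ((1 / 2 : ℝ) : ℂ) - s : ℂ) = u + n := by
    apply Complex.ext
    · simp only [sub_re, add_re, one_re, ofReal_re, hre, hure, natCast_re]; ring
    · simp only [sub_im, add_im, one_im, ofReal_im, huim, natCast_im]; ring
  have hu0 : u.im ≠ 0 := by rw [huim]; simpa using hs
  have e2 : Gamma (1 + ((1 / 2 : ℝ) : ℂ) - s) = (∏ j ∈ Finset.range n, (u + j)) * Gamma u := by
    rw [e1, Gamma_add_nat u hu0]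
  have e3 : ‖Gamma u‖ = ‖Gamma (s + ((1 / 2 : ℝ) : ℂ))‖ := by
    rw [hu, Complex.Gamma_conj, RCLike.norm_conj]
  have e4 : ‖(κ : ℂ) ^ (1 - 2 * s)‖ = κ ^ n := by
    rw [Complex.norm_cpow_eq_rpow_re_of_pos hκ]
    have : (1 - 2 * s).re = n := by
      simp only [sub_re, one_re, mul_re, re_ofNat, im_ofNat, hre]; ring
    rw [this, Real.rpow_natCast]
  have e5 : ‖∏ j ∈ Finset.range n, (u + (j : ℂ))‖ ≤ ((n : ℝ) / 2 + |s.im|) ^ n := by
    rw [norm_prod]
    calc ∏ j ∈ Finset.range n, ‖u + (j : ℂ)‖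
        ≤ ∏ j ∈ Finset.range n, ((n : ℝ) / 2 + |s.im|) := by
          apply Finset.prod_le_prod (fun _ _ => norm_nonneg _)
          intro j hj
          refine (norm_le_abs_re_add_abs_im (u + j)).trans ?_
          rw [add_re, add_im, hure, huim, natCast_re, natCast_im, add_zero, abs_neg]
          have hj1 : (j : ℝ) + 1 ≤ n := by exact_mod_cast (Finset.mem_range.mp hj)
          have hj0 : (0 : ℝ) ≤ j := Nat.cast_nonneg j
          have : |1 - (n : ℝ) / 2 + j| ≤ (n : ℝ) / 2 := by rw [abs_le]; constructor <;> linarith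
          linarith
      _ = _ := by simp
  have hGn : ‖Gamma (s + ((1 / 2 : ℝ) : ℂ))‖ ≠ 0 := norm_ne_zero_iff.mpr hg2
  unfold LX
  rw [norm_div, norm_mul, norm_mul, e4, hw, e2, norm_mul, e3]
  calc κ ^ n * 1 * (‖∏ j ∈ Finset.range n, (u + (j : ℂ))‖ * ‖Gamma (s + ((1 / 2 : ℝ) : ℂ))‖) /
        ‖Gamma (s + ((1 / 2 : ℝ) : ℂ))‖
      = κ ^ n * ‖∏ j ∈ Finset.range n, (u + (j : ℂ))‖ := by field_simp
    _ ≤ _ := by gcongr

theorem half_eq : (((2 : ℤ) : ℝ) - 1) / 2 = 1 / 2 := by norm_num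

theorem F_left_edge_wide (n : ℕ) (hn : 2 ≤ n) {N Q B : ℝ} (hN : 1 ≤ N) (hQ : 1 ≤ Q)
    {F : ℂ → ℂ} (hF : FE2 2 N Q F) (hB : ∀ s : ℂ, ((n : ℝ) + 1) / 2 ≤ s.re → ‖F s‖ ≤ B)
    (s : ℂ) (hs : s.re = (1 - (n : ℝ)) / 2) :
    ‖F s‖ ≤ B * (Real.sqrt N * Q) ^ n * ((n : ℝ) / 2 + |s.im|) ^ n := by
  have hB0 : 0 ≤ B := (norm_nonneg _).trans (hB (((((n : ℝ) + 1) / 2 : ℝ)) : ℂ) (by simp))
  have hsq : 0 < Real.sqrt N := Real.sqrt_pos.mpr (by linarith)
  have hpi := Real.pi_pos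
  have hpi3 := Real.pi_gt_three
  have hκ : 0 < Real.sqrt N * Q / (2 * Real.pi) := by positivity
  obtain ⟨w, hw, hfe⟩ := fe_asym hN hQ hF
  rw [half_eq] at hfe
  have hκ2 : (Real.sqrt N * Q / (2 * Real.pi)) ^ n ≤ (Real.sqrt N * Q) ^ n := by
    apply pow_le_pow_left₀ hκ.le
    apply div_le_self (by positivity)
    linarith
  have key : ∀ z : ℂ, z.re = (1 - (n : ℝ)) / 2 → z.im ≠ 0 →
      ‖F z‖ ≤ B * (Real.sqrt N * Q) ^ n * ((n : ℝ) / 2 + |z.im|) ^ n := by
    intro z hz him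
    rw [hfe z him, norm_mul]
    have e1 := norm_LX_wide n hn w hw _ hκ hz him
    have e2 : ‖refl F z‖ ≤ B := by
      unfold H370.DL.refl
      rw [RCLike.norm_conj]
      apply hB
      rw [re_osc, hz]
      linarith
    calc ‖LX w (Real.sqrt N * Q / (2 * Real.pi)) (1 / 2) z‖ * ‖refl F z‖
        ≤ ((Real.sqrt N * Q / (2 * Real.pi)) ^ n * ((n : ℝ) / 2 + |z.im|) ^ n) * B := by gcongr
      _ ≤ ((Real.sqrt N * Q) ^ n * ((n : ℝ) / 2 + |z.im|) ^ n) * B := by gcongr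
      _ = _ := by ring
  have hsv : s = (((1 - (n : ℝ)) / 2 : ℝ) : ℂ) + (s.im : ℂ) * I := by
    apply Complex.ext
    · simp only [add_re, ofReal_re, mul_re, I_re, mul_zero, ofReal_im, I_im, mul_one, sub_self,
        add_zero, hs]
    · simp only [add_im, ofReal_im, mul_im, ofReal_re, I_im, mul_one, I_re, mul_zero, add_zero,
        zero_add]
  have hcont : Continuous F := hF.diff.continuous
  have h1 : Continuous (fun t : ℝ => ‖F ((((1 - (n : ℝ)) / 2 : ℝ) : ℂ) + (t : ℂ) * I)‖) := by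
    fun_prop
  have h2 : Continuous (fun t : ℝ => B * (Real.sqrt N * Q) ^ n * ((n : ℝ) / 2 + |t|) ^ n) := by
    fun_prop
  have h3 : ∀ t ∈ closure ({0}ᶜ : Set ℝ), ‖F ((((1 - (n : ℝ)) / 2 : ℝ) : ℂ) + (t : ℂ) * I)‖ ≤
      B * (Real.sqrt N * Q) ^ n * ((n : ℝ) / 2 + |t|) ^ n := by
    intro t ht
    refine closure_minimal ?_ (isClosed_le h1 h2) ht
    intro t ht
    have him : ((((1 - (n : ℝ)) / 2 : ℝ) : ℂ) + (t : ℂ) * I).im = t := by
      simp only [add_im, ofReal_im, mul_im, ofReal_re, I_im, mul_one, I_re, mul_zero, add_zero,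
        zero_add]
    have hre : ((((1 - (n : ℝ)) / 2 : ℝ) : ℂ) + (t : ℂ) * I).re = (1 - (n : ℝ)) / 2 := by
      simp only [add_re, ofReal_re, mul_re, I_re, mul_zero, ofReal_im, I_im, mul_one, sub_self,
        add_zero]
    have := key ((((1 - (n : ℝ)) / 2 : ℝ) : ℂ) + (t : ℂ) * I) hre (by rw [him]; exact ht)
    rw [him] at this
    exact this
  have h4 : closure ({0}ᶜ : Set ℝ) = univ := by
    rw [closure_compl_singleton]
  have h5 := h3 s.im (by rw [h4]; trivial)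
  rwa [← hsv] at h5

/-- the auxiliary function -/
noncomputable def HW (n : ℕ) (Q : ℝ) (F : ℂ → ℂ) (s : ℂ) : ℂ :=
  F s * (Q : ℂ) ^ (s - ((n : ℂ) + 1) / 2) * ((s + (n + 3)) ^ n)⁻¹

theorem HW_bound (n : ℕ) (hn : 2 ≤ n) {N Q B : ℝ} (hN : 1 ≤ N) (hQ : 1 ≤ Q) (hB1 : 1 ≤ B)
    {F : ℂ → ℂ} (hF : FE2 2 N Q F) (hB : ∀ s : ℂ, ((n : ℝ) + 1) / 2 ≤ s.re → ‖F s‖ ≤ B) (s : ℂ)
    (h1 : (1 - (n : ℝ)) / 2 ≤ s.re) (h2 : s.re ≤ ((n : ℝ) + 1) / 2) :
    ‖HW n Q F s‖ ≤ B * (2 * Real.sqrt N) ^ n := by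
  have hn2 : (2 : ℝ) ≤ n := by exact_mod_cast hn
  have hsq1 : 1 ≤ Real.sqrt N := by
    rw [Real.one_le_sqrt]; exact hN
  have hQ0 : (0 : ℝ) < Q := by linarith
  have hQC : (Q : ℂ) ≠ 0 := by exact_mod_cast hQ0.ne'
  have hree : ∀ z : ℂ, (z - ((n : ℂ) + 1) / 2).re = z.re - ((n : ℝ) + 1) / 2 := by
    intro z
    have : (((n : ℂ) + 1) / 2) = ((((n : ℝ) + 1) / 2 : ℝ) : ℂ) := by push_cast; ring
    rw [Complex.sub_re, this, ofReal_re]
  have hqn : ∀ z : ℂ, ‖(Q : ℂ) ^ (z - ((n : ℂ) + 1) / 2)‖ = Q ^ (z.re - ((n : ℝ) + 1) / 2) := by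
    intro z
    rw [Complex.norm_cpow_eq_rpow_re_of_pos hQ0, hree]
  have hs3 : ∀ z : ℂ, ‖((z + (n + 3)) ^ n)⁻¹‖ = (‖z + (n + 3)‖ ^ n)⁻¹ := by
    intro z; rw [norm_inv, norm_pow]
  have hre3 : ∀ z : ℂ, (z + (n + 3)).re = z.re + (n + 3) := by
    intro z; simp
  have him3 : ∀ z : ℂ, (z + (n + 3)).im = z.im := by
    intro z; simp
  refine PhragmenLindelof.vertical_strip (f := HW n Q F) (a := (1 - (n : ℝ)) / 2)
    (b := ((n : ℝ) + 1) / 2) ?_ ?_ ?_ ?_ h1 h2
  · -- differentiability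
    have hd : DifferentiableOn ℂ (HW n Q F) {z : ℂ | -((n : ℝ) + 3) < z.re} := by
      intro z hz
      have hz' : -((n : ℝ) + 3) < z.re := hz
      have hz3 : (z + (n + 3)) ^ n ≠ 0 := by
        apply pow_ne_zero
        intro h
        have := congrArg Complex.re h
        rw [hre3] at this
        simp at this
        linarith
      apply DifferentiableAt.differentiableWithinAt
      unfold HW
      refine ((hF.diff z).mul ?_).mul ?_
      · exact DifferentiableAt.const_cpow (by fun_prop) (Or.inl hQC)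
      · exact DifferentiableAt.inv (by fun_prop) hz3
    apply DifferentiableOn.diffContOnCl
    apply hd.mono
    refine (Complex.continuous_re.closure_preimage_subset _).trans ?_
    intro z hz
    have hz' : z.re ∈ closure (Ioo ((1 - (n : ℝ)) / 2) (((n : ℝ) + 1) / 2)) := hz
    rw [closure_Ioo (by linarith)] at hz'
    have := hz'.1
    change -((n : ℝ) + 3) < z.re
    linarith
  · -- growth
    obtain ⟨M, D, hM0, hD0, hM⟩ := inv_Gamma_wide n
    obtain ⟨C, hC'⟩ := hF.vert ((1 - (n : ℝ)) / 2) (((n : ℝ) + 1) / 2)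
    have hsq : 0 < Real.sqrt N := Real.sqrt_pos.mpr (by linarith)
    have hpi := Real.pi_pos
    set κ : ℝ := Real.sqrt N * Q / (2 * Real.pi) with hκd
    have hκ : 0 < κ := by positivity
    have hκc : (κ : ℂ) ≠ 0 := ofReal_ne_zero.mpr hκ.ne'
    refine ⟨1 / (n : ℝ), ?_, D * n, ?_⟩
    · rw [show (((n : ℝ) + 1) / 2 - (1 - (n : ℝ)) / 2) = n by ring]
      apply div_lt_div_of_pos_right _ (by linarith)
      linarith [Real.pi_gt_three]
    set a1 : ℝ := (1 - (n : ℝ)) / 2 with ha1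
    set b1 : ℝ := ((n : ℝ) + 1) / 2 with hb1
    refine IsBigO.of_bound (M * (κ ^ (-a1) + κ ^ (-b1)) * C) ?_
    rw [eventually_inf_principal]
    have hev : ∀ᶠ z : ℂ in comap (abs ∘ Complex.im) atTop, 1 ≤ |z.im| := by
      have := (eventually_ge_atTop (1 : ℝ)).comap (abs ∘ Complex.im)
      exact this
    filter_upwards [hev] with z hz1 hz2
    have hz2' : z.re ∈ Ioo a1 b1 := hz2
    have hre : (z + ((1 / 2 : ℝ) : ℂ)).re = z.re + 1 / 2 := by
      rw [add_re, ofReal_re]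
    have him : (z + ((1 / 2 : ℝ) : ℂ)).im = z.im := by
      rw [add_im, ofReal_im, add_zero]
    have e1 := hM (z + ((1 / 2 : ℝ) : ℂ)) (by rw [hre]; linarith [hz2'.1]) (by rw [him]; exact hz1)
    rw [him] at e1
    have e2 := hC' z hz2'.1.le hz2'.2.le hz1
    have hz0 : z.im ≠ 0 := by
      intro h; rw [h, abs_zero] at hz1; linarith
    have hGG : GG 2 N Q z = (κ : ℂ) ^ z * Gamma (z + ((1 / 2 : ℝ) : ℂ)) := by
      have hcc : (((2 : ℤ) : ℂ) - 1) / 2 = (((1 / 2 : ℝ) : ℝ) : ℂ) := by push_cast; ring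
      unfold GG; rw [hcc]
    have hg : Gamma (z + ((1 / 2 : ℝ) : ℂ)) ≠ 0 :=
      Gamma_ne_zero (ne_neg_nat_of_im (by rw [him]; exact hz0))
    have hp : (κ : ℂ) ^ z ≠ 0 := by
      rw [Ne, cpow_eq_zero_iff]
      exact fun h => hκc h.1
    have e3 : ‖((κ : ℂ) ^ z)⁻¹‖ ≤ κ ^ (-a1) + κ ^ (-b1) := by
      rw [norm_inv, Complex.norm_cpow_eq_rpow_re_of_pos hκ, ← Real.rpow_neg hκ.le]
      rcases le_total 1 κ with h | h
      · have := Real.rpow_le_rpow_of_exponent_le h (show -z.re ≤ -a1 by linarith [hz2'.1])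
        have h5 : 0 ≤ κ ^ (-b1) := by positivity
        linarith
      · have := Real.rpow_le_rpow_of_exponent_ge hκ h
          (show -b1 ≤ -z.re by linarith [hz2'.2])
        have h5 : 0 ≤ κ ^ (-a1) := by positivity
        linarith
    have e4 : Q ^ (z.re - b1) ≤ 1 :=
      Real.rpow_le_one_of_one_le_of_nonpos hQ (by linarith [hz2'.2])
    have e5 : (‖z + (n + 3)‖ ^ n)⁻¹ ≤ 1 := by
      apply inv_le_one_of_one_le₀
      have h5 := Complex.abs_re_le_norm (z + (n + 3))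
      rw [hre3, abs_of_pos (by linarith [hz2'.1])] at h5
      apply one_le_pow₀
      linarith [hz2'.1]
    have hC0' : 0 ≤ C := (norm_nonneg _).trans e2
    have e7 : F z = (Gamma (z + ((1 / 2 : ℝ) : ℂ)))⁻¹ * ((κ : ℂ) ^ z)⁻¹ * (GG 2 N Q z * F z) := by
      rw [hGG]
      field_simp
    unfold HW
    rw [norm_mul, norm_mul, hqn, hs3, e7, norm_mul, norm_mul, Real.norm_eq_abs,
      abs_of_pos (Real.exp_pos _)]
    have e6 : Real.exp (D * |z.im|) ≤ Real.exp (D * n * Real.exp (1 / n * |z.im|)) := by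
      apply Real.exp_le_exp.mpr
      rw [mul_assoc]
      apply mul_le_mul_of_nonneg_left _ hD0
      have h8 := Real.add_one_le_exp (1 / n * |z.im|)
      have h9 : |z.im| = n * (1 / n * |z.im|) := by field_simp
      calc |z.im| = n * (1 / n * |z.im|) := h9
        _ ≤ n * Real.exp (1 / n * |z.im|) := by
          apply mul_le_mul_of_nonneg_left _ (by linarith)
          linarith
    have hE := (Real.exp_pos (D * |z.im|)).le
    calc ‖(Gamma (z + ((1 / 2 : ℝ) : ℂ)))⁻¹‖ * ‖((κ : ℂ) ^ z)⁻¹‖ * ‖GG 2 N Q z * F z‖ *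
          Q ^ (z.re - b1) * (‖z + (n + 3)‖ ^ n)⁻¹
        ≤ (M * Real.exp (D * |z.im|)) * (κ ^ (-a1) + κ ^ (-b1)) * C * 1 * 1 := by
          gcongr
      _ = M * (κ ^ (-a1) + κ ^ (-b1)) * C * Real.exp (D * |z.im|) := by ring
      _ ≤ M * (κ ^ (-a1) + κ ^ (-b1)) * C *
          Real.exp (D * n * Real.exp (1 / n * |z.im|)) := by
          apply mul_le_mul_of_nonneg_left e6
          positivity
  · intro z hz
    have e1 := F_left_edge_wide n hn hN hQ hF hB z hz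
    unfold HW
    rw [norm_mul, norm_mul, hqn, hs3, hz]
    have e2 : Q ^ ((1 - (n : ℝ)) / 2 - ((n : ℝ) + 1) / 2) = (Q ^ n)⁻¹ := by
      rw [show (1 - (n : ℝ)) / 2 - ((n : ℝ) + 1) / 2 = -(n : ℝ) by ring, Real.rpow_neg hQ0.le,
        Real.rpow_natCast]
    rw [e2]
    have hpos : 0 < ‖z + (n + 3)‖ := by
      have h5 := Complex.abs_re_le_norm (z + (n + 3))
      rw [hre3, hz, abs_of_pos (by linarith)] at h5
      linarith
    have e3 : (n : ℝ) / 2 + |z.im| ≤ 2 * ‖z + (n + 3)‖ := by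
      have h5 := Complex.abs_re_le_norm (z + (n + 3))
      rw [hre3, hz, abs_of_pos (by linarith)] at h5
      have h6 := Complex.abs_im_le_norm (z + (n + 3))
      rw [him3] at h6
      linarith
    have e3' : ((n : ℝ) / 2 + |z.im|) ^ n ≤ 2 ^ n * ‖z + (n + 3)‖ ^ n := by
      rw [← mul_pow]
      exact pow_le_pow_left₀ (by positivity) e3 n
    have e4 : 0 < ‖z + (n + 3)‖ ^ n := by positivity
    calc ‖F z‖ * (Q ^ n)⁻¹ * (‖z + (n + 3)‖ ^ n)⁻¹
        ≤ (B * (Real.sqrt N * Q) ^ n * ((n : ℝ) / 2 + |z.im|) ^ n) * (Q ^ n)⁻¹ *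
            (‖z + (n + 3)‖ ^ n)⁻¹ := by gcongr
      _ = (B * Real.sqrt N ^ n) * (((n : ℝ) / 2 + |z.im|) ^ n * (‖z + (n + 3)‖ ^ n)⁻¹) := by
          rw [mul_pow]
          have : Q ^ n * (Q ^ n)⁻¹ = 1 := mul_inv_cancel₀ (by positivity)
          calc _ = (B * Real.sqrt N ^ n) * (((n : ℝ) / 2 + |z.im|) ^ n * (‖z + (n + 3)‖ ^ n)⁻¹) *
                (Q ^ n * (Q ^ n)⁻¹) := by ring
            _ = _ := by rw [this, mul_one]
      _ ≤ (B * Real.sqrt N ^ n) * 2 ^ n := by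
          apply mul_le_mul_of_nonneg_left _ (by positivity)
          rw [← div_eq_mul_inv, div_le_iff₀ e4]
          exact e3'
      _ = B * (2 * Real.sqrt N) ^ n := by rw [mul_pow]; ring
  · intro z hz
    have e1 := hB z (by rw [hz])
    unfold HW
    rw [norm_mul, norm_mul, hqn, hs3, hz, sub_self, Real.rpow_zero, mul_one]
    have e4 : 1 ≤ ‖z + (n + 3)‖ ^ n := by
      have h5 := Complex.abs_re_le_norm (z + (n + 3))
      rw [hre3, hz, abs_of_pos (by linarith)] at h5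
      apply one_le_pow₀
      linarith
    have h6 : 1 ≤ (2 * Real.sqrt N) ^ n := by
      apply one_le_pow₀
      linarith
    calc ‖F z‖ * (‖z + (n + 3)‖ ^ n)⁻¹ ≤ B * 1 := by
          apply mul_le_mul e1 (inv_le_one_of_one_le₀ e4) (by positivity) (by linarith)
      _ ≤ B * (2 * Real.sqrt N) ^ n := by
          apply mul_le_mul_of_nonneg_left h6 (by linarith)

theorem F_growth_wide (n : ℕ) (hn : 2 ≤ n) {N Q B : ℝ} (hN : 1 ≤ N) (hQ : 1 ≤ Q) (hB1 : 1 ≤ B)
    {F : ℂ → ℂ} (hF : FE2 2 N Q F) (hB : ∀ s : ℂ, ((n : ℝ) + 1) / 2 ≤ s.re → ‖F s‖ ≤ B) {A : ℝ}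
    (hA : n + B * (2 * Real.sqrt N) ^ n * (2 * (n : ℝ) + 5) ^ n ≤ A)
    (s : ℂ) (h1 : (1 - (n : ℝ)) / 2 ≤ s.re) (h3 : 1 ≤ s.im) :
    ‖F s‖ ≤ A * (Q * s.im) ^ A := by
  have hn2 : (2 : ℝ) ≤ n := by exact_mod_cast hn
  have hsq1 : 1 ≤ Real.sqrt N := by
    rw [Real.one_le_sqrt]; exact hN
  have hQ0 : (0 : ℝ) < Q := by linarith
  have hqt : 1 ≤ Q * s.im := by nlinarith
  have hM0 : 0 ≤ B * (2 * Real.sqrt N) ^ n * (2 * (n : ℝ) + 5) ^ n := by positivity
  have hAn : (n : ℝ) ≤ A := by linarith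
  have hpow : (Q * s.im) ^ n ≤ (Q * s.im) ^ A := by
    rw [← Real.rpow_natCast]
    exact Real.rpow_le_rpow_of_exponent_le hqt hAn
  have key : ‖F s‖ ≤ B * (2 * Real.sqrt N) ^ n * (2 * (n : ℝ) + 5) ^ n * (Q * s.im) ^ n := by
    rcases le_total s.re (((n : ℝ) + 1) / 2) with h | h
    · have e1 := HW_bound n hn hN hQ hB1 hF hB s h1 h
      unfold HW at e1
      have hree : (s - ((n : ℂ) + 1) / 2).re = s.re - ((n : ℝ) + 1) / 2 := by
        have : (((n : ℂ) + 1) / 2) = ((((n : ℝ) + 1) / 2 : ℝ) : ℂ) := by push_cast; ring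
        rw [Complex.sub_re, this, ofReal_re]
      rw [norm_mul, norm_mul, norm_inv, norm_pow, Complex.norm_cpow_eq_rpow_re_of_pos hQ0,
        hree] at e1
      have hre' : (s + (n + 3)).re = s.re + (n + 3) := by simp
      have him' : (s + (n + 3)).im = s.im := by simp
      have hpos : 0 < ‖s + (n + 3)‖ := by
        have h5 := Complex.abs_re_le_norm (s + (n + 3))
        rw [hre', abs_of_pos (by linarith)] at h5
        linarith
      have e2 : 0 < ‖s + (n + 3)‖ ^ n := by positivity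
      have e3 : ‖s + (n + 3)‖ ^ n ≤ ((2 * (n : ℝ) + 5) * s.im) ^ n := by
        apply pow_le_pow_left₀ (norm_nonneg _)
        refine (norm_le_abs_re_add_abs_im _).trans ?_
        rw [hre', him', abs_of_nonneg (by linarith), abs_of_nonneg (by linarith)]
        nlinarith
      have e4 : (Q ^ n)⁻¹ ≤ Q ^ (s.re - ((n : ℝ) + 1) / 2) := by
        rw [← Real.rpow_natCast, ← Real.rpow_neg hQ0.le]
        apply Real.rpow_le_rpow_of_exponent_le hQ
        linarith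
      have e5 : ‖F s‖ * (Q ^ n)⁻¹ * (‖s + (n + 3)‖ ^ n)⁻¹ ≤ B * (2 * Real.sqrt N) ^ n := by
        refine le_trans ?_ e1
        gcongr
      have e6 : ‖F s‖ ≤ B * (2 * Real.sqrt N) ^ n * (‖s + (n + 3)‖ ^ n) * Q ^ n := by
        have hq2 : (0 : ℝ) < Q ^ n := by positivity
        have : ‖F s‖ = (‖F s‖ * (Q ^ n)⁻¹ * (‖s + (n + 3)‖ ^ n)⁻¹) *
            (‖s + (n + 3)‖ ^ n) * Q ^ n := by
          have e2' := e2.ne'
          have hq2' := hq2.ne'
          generalize ‖s + (n + 3)‖ ^ n = N at e2' ⊢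
          generalize Q ^ n = P at hq2' ⊢
          field_simp
        rw [this]
        gcongr
      calc ‖F s‖ ≤ B * (2 * Real.sqrt N) ^ n * (‖s + (n + 3)‖ ^ n) * Q ^ n := e6
        _ ≤ B * (2 * Real.sqrt N) ^ n * (((2 * (n : ℝ) + 5) * s.im) ^ n) * Q ^ n := by gcongr
        _ = B * (2 * Real.sqrt N) ^ n * (2 * (n : ℝ) + 5) ^ n * (Q * s.im) ^ n := by
          rw [mul_pow, mul_pow]; ring
    · have e1 := hB s h
      have e2 : 1 ≤ (Q * s.im) ^ n := one_le_pow₀ hqt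
      have e3 : 1 ≤ (2 * Real.sqrt N) ^ n := one_le_pow₀ (by linarith)
      have e4 : 1 ≤ (2 * (n : ℝ) + 5) ^ n := one_le_pow₀ (by linarith)
      calc ‖F s‖ ≤ B * 1 * 1 * 1 := by simpa using e1
        _ ≤ _ := by gcongr
  calc ‖F s‖ ≤ B * (2 * Real.sqrt N) ^ n * (2 * (n : ℝ) + 5) ^ n * (Q * s.im) ^ n := key
    _ ≤ A * (Q * s.im) ^ A := by
      apply mul_le_mul (by linarith) hpow (by positivity) (by linarith)

theorem F_left_wide (n : ℕ) (hn : 2 ≤ n) {N Q : ℝ} (hN : 1 ≤ N) (hQ : 1 ≤ Q)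
    {F : ℂ → ℂ} (hF : FE2 2 N Q F) {C : ℝ}
    (hC : ∀ w : ℂ, -(n : ℝ) - 1 / 2 ≤ w.re → w.re ≤ (n : ℝ) + 1 → 1 ≤ |w.im| →
      ‖logDeriv Gamma w - Real.log |w.im|‖ ≤ C)
    (s : ℂ) (h1 : (1 - (n : ℝ)) / 2 ≤ s.re) (h2 : s.re ≤ ((n : ℝ) + 1) / 2) (h3 : 1 ≤ s.im)
    (h4 : F s ≠ 0) :
    ‖deriv F s / F s + ((2 * Real.log (Q * s.im) : ℝ) : ℂ) +
        (starRingEnd ℂ) (deriv F (1 - (starRingEnd ℂ) s) / F (1 - (starRingEnd ℂ) s))‖ ≤
      |2 * Real.log (Real.sqrt N / (2 * Real.pi))| + C + C := by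
  have hn2 : (2 : ℝ) ≤ n := by exact_mod_cast hn
  have hs : s.im ≠ 0 := by linarith
  have hQ0 : (0 : ℝ) < Q := by linarith
  have hpi := Real.pi_pos
  have hsq : 0 < Real.sqrt N := Real.sqrt_pos.mpr (by linarith)
  have hκ : 0 < Real.sqrt N * Q / (2 * Real.pi) := by positivity
  obtain ⟨w, hw, hfe⟩ := fe_asym hN hQ hF
  rw [half_eq] at hfe
  have hw0 : w ≠ 0 := by
    intro h
    rw [h, norm_zero] at hw
    exact zero_ne_one hw
  set κ : ℝ := Real.sqrt N * Q / (2 * Real.pi) with hκd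
  set c : ℝ := 1 / 2 with hcd
  have hd : Differentiable ℂ F := hF.diff
  have ha : AnalyticAt ℂ F (1 - (starRingEnd ℂ) s) :=
    (hd.differentiableOn).analyticAt Filter.univ_mem
  have e1 : F =ᶠ[𝓝 s] fun z => LX w κ c z * refl F z := by
    filter_upwards [eventually_im_ne hs] with z hz
    exact hfe z hz
  have hr : refl F s ≠ 0 := by
    intro h
    apply h4
    rw [hfe s hs, h, mul_zero]
  have e2 : logDeriv F s = logDeriv (LX w κ c) s + logDeriv (refl F) s := by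
    rw [(logDeriv_congr_nhds e1).eq_of_nhds]
    exact logDeriv_mul s (LX_ne_zero w hw0 κ c hκ hs) hr (LX_analytic w κ c hκ hs).differentiableAt
      (analyticAt_refl ha).differentiableAt
  rw [logDeriv_refl ha.differentiableAt, logDeriv_LX w hw0 κ c hκ hs] at e2
  change ‖logDeriv F s + ((2 * Real.log (Q * s.im) : ℝ) : ℂ) +
    (starRingEnd ℂ) (logDeriv F (1 - (starRingEnd ℂ) s))‖ ≤ _
  rw [e2]
  have i1 : |(1 + (c : ℂ) - s).im| = s.im := by
    simp [abs_of_nonneg (by linarith : 0 ≤ s.im)]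
  have i2 : |(s + (c : ℂ)).im| = s.im := by
    simp [abs_of_nonneg (by linarith : 0 ≤ s.im)]
  have r1 : (1 + (c : ℂ) - s).re = 1 + 1 / 2 - s.re := by
    rw [sub_re, add_re, one_re, ofReal_re, hcd]
  have r2 : (s + (c : ℂ)).re = s.re + 1 / 2 := by
    rw [add_re, ofReal_re, hcd]
  have b1 := hC (1 + c - s) (by rw [r1]; linarith) (by rw [r1]; linarith) (by rw [i1]; exact h3)
  have b2 := hC (s + c) (by rw [r2]; linarith) (by rw [r2]; linarith) (by rw [i2]; exact h3)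
  rw [i1] at b1
  rw [i2] at b2
  have hlogκ : Real.log κ = Real.log (Real.sqrt N / (2 * Real.pi)) + Real.log Q := by
    rw [← Real.log_mul (by positivity) hQ0.ne', hκd]
    congr 1
    ring
  have hlogq : Real.log (Q * s.im) = Real.log Q + Real.log s.im :=
    Real.log_mul hQ0.ne' hs
  have e3 : -(2 * Real.log κ : ℂ) - logDeriv Gamma (1 + c - s) - logDeriv Gamma (s + c) +
      -(starRingEnd ℂ) (logDeriv F (1 - (starRingEnd ℂ) s)) +
        ((2 * Real.log (Q * s.im) : ℝ) : ℂ) +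
      (starRingEnd ℂ) (logDeriv F (1 - (starRingEnd ℂ) s)) =
      -((2 * Real.log (Real.sqrt N / (2 * Real.pi)) : ℝ) : ℂ) -
        (logDeriv Gamma (1 + c - s) - Real.log s.im) -
      (logDeriv Gamma (s + c) - Real.log s.im) := by
    rw [hlogq, hlogκ]
    push_cast
    ring
  rw [e3]
  refine (norm_sub_le _ _).trans ?_
  have n1 := norm_sub_le (-((2 * Real.log (Real.sqrt N / (2 * Real.pi)) : ℝ) : ℂ))
    (logDeriv Gamma (1 + c - s) - Real.log s.im)
  rw [norm_neg, Complex.norm_real, Real.norm_eq_abs] at n1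
  linarith

open Complex in
/-- analytic consequences of the functional equation of weight two in wide strips -/
theorem wide (n : ℕ) (hn : 2 ≤ n) (N B : ℝ) (hN : 1 ≤ N) (hB : 1 ≤ B) : ∃ A : ℝ, 1 ≤ A ∧ ∀ Q : ℝ, 1 ≤ Q → ∀ F : ℂ → ℂ, W388.FE2 2 N Q F →
  (∀ s : ℂ, ((n : ℝ) + 1) / 2 ≤ s.re → ‖F s‖ ≤ B) →
  (∀ s : ℂ, (1 - (n : ℝ)) / 2 ≤ s.re → 1 ≤ s.im → ‖F s‖ ≤ A * (Q * s.im) ^ A) ∧
  (∀ s : ℂ, s.im ≠ 0 → analyticOrderAt F (1 - (starRingEnd ℂ) s) = analyticOrderAt F s) ∧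
  (∀ s : ℂ, s.im ≠ 0 → (F s = 0 ↔ F (1 - (starRingEnd ℂ) s) = 0)) ∧
  (∀ s : ℂ, (1 - (n : ℝ)) / 2 ≤ s.re → s.re ≤ ((n : ℝ) + 1) / 2 → 1 ≤ s.im → F s ≠ 0 →
    ‖deriv F s / F s + ((2 * Real.log (Q * s.im) : ℝ) : ℂ) +
      (starRingEnd ℂ) (deriv F (1 - (starRingEnd ℂ) s) / F (1 - (starRingEnd ℂ) s))‖ ≤ A) := by
  have hn2 : (2 : ℝ) ≤ n := by exact_mod_cast hn
  obtain ⟨C, hC0, hC⟩ := digamma_wide ((n : ℝ) + 1) (by linarith) n
  have h2 := abs_nonneg (2 * Real.log (Real.sqrt N / (2 * Real.pi)))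
  have hM0 : 0 ≤ B * (2 * Real.sqrt N) ^ n * (2 * (n : ℝ) + 5) ^ n := by positivity
  refine ⟨(n + B * (2 * Real.sqrt N) ^ n * (2 * (n : ℝ) + 5) ^ n) +
    (|2 * Real.log (Real.sqrt N / (2 * Real.pi))| + C + C), by linarith, ?_⟩
  intro Q hQ F hF hBF
  have hsq : 0 < Real.sqrt N := Real.sqrt_pos.mpr (by linarith)
  have hpi := Real.pi_pos
  have hκ : 0 < Real.sqrt N * Q / (2 * Real.pi) := by positivity
  obtain ⟨w, hw, hfe⟩ := fe_asym hN hQ hF
  rw [half_eq] at hfe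
  have hw0 : w ≠ 0 := by
    intro h
    rw [h, norm_zero] at hw
    exact zero_ne_one hw
  refine ⟨?_, ?_, ?_, ?_⟩
  · intro s h1 h3
    exact F_growth_wide n hn hN hQ hB hF hBF (by linarith) s h1 h3
  · intro s hs
    have ha : AnalyticAt ℂ F (1 - (starRingEnd ℂ) s) := hF.diff.analyticAt _
    have h1 : F =ᶠ[𝓝 s] (LX w (Real.sqrt N * Q / (2 * Real.pi)) (1 / 2)) * refl F := by
      filter_upwards [eventually_im_ne hs] with z hz
      exact hfe z hz
    have hX := LX_analytic w _ (1 / 2) hκ hs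
    rw [analyticOrderAt_congr h1, analyticOrderAt_mul hX (analyticAt_refl ha),
      hX.analyticOrderAt_eq_zero.mpr (LX_ne_zero w hw0 _ _ hκ hs), zero_add, order_refl ha]
  · intro s hs
    have hX := LX_ne_zero w hw0 (Real.sqrt N * Q / (2 * Real.pi)) (1 / 2) hκ hs
    rw [hfe s hs, mul_eq_zero, or_iff_right hX]
    unfold H370.DL.refl
    rw [map_eq_zero]
  · intro s h1 h2' h3 h4
    have h5 := F_left_wide n hn hN hQ hF hC s h1 h2' h3 h4
    have h6 : (0 : ℝ) ≤ n := by linarith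
    linarith

end Pool.Agent.N615.Wide
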