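import Pool.Agent.N657.ZS.Stm
import Pool.Agent.N623.NA.Main

/-!
# The static potential of the charges is bounded

Project ZS (helper657), task POT (subtask 1419).
-/

set_option autoImplicit false
set_option linter.unusedSectionVars false

namespace Pool.Agent.N615.ZS_POT

open MeasureTheory Filter Pool.Agent.TH964.CF Pool.Agent.TH964.CF.BASIC Pool.Agent.N623.NA
  Pool.Agent.N657.ZS
open scoped Matrix.Norms.Frobenius Matrix Topology

variable {G : Type} [Group G] [TopologicalSpace G] [IsTopologicalGroup G] [CompactSpace G]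
  [T2Space G] [SecondCountableTopology G] [MeasurableSpace G] [BorelSpace G] {σ : Measure G}
  [IsProbabilityMeasure σ] [σ.IsHaarMeasure] {N : ℕ} {π : G →* Matrix.unitaryGroup (Fin N) ℂ}
  {β : ℝ} {Λ : ((Lk ℤ → G) → ℂ) → ℂ}

theorem dp_id {ι : Type} [Fintype ι] [DecidableEq ι] (A : G →* Matrix.unitaryGroup ι ℂ)
    (Z : (Lk ℤ → G) → Matrix ι ι ℂ) : dp A (fun _ => 1) 0 Z = Z := by
  funext U
  rw [dp_zero, Matrix.one_mul]

/-- The rate at the depth zero. -/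
theorem rate0 (h1 : S_ONE) (hR : S_RPF) (hπ : Continuous π) (hΛ : State σ π β Λ) {q : ℕ}
    {d : G → ZMod q} (hq : 0 < q) (hd : Ch d) (hP : Pei d Λ (1 / 10000))
    {ψ : AddChar (ZMod q) ℂ} {A : G →* Matrix.unitaryGroup (Fin 1) ℂ} (hA : Continuous A)
    (hψ : ∀ u, mt A u = Matrix.of fun _ _ => ψ (d u)) {R : ℕ} (hR1 : 1 ≤ R) :
    RateM Λ A R (1 / 8) 0 := by
  obtain ⟨S, hS, hc, hdep, e0, e1⟩ := h1 G σ N π hπ β Λ hΛ q d hq hd hP ψ A hψ R hR1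
  set Φ : (Lk ℤ → G) → Matrix (Fin 1) (Fin 1) ℂ := PH d ψ R S with hΦ
  have hl : Loc Φ := by
    have : DependsOn Φ (box (S + 1) ∩ (hs 0 0 ∩ hs 1 0)) := by
      rw [← Set.inter_assoc]
      exact hdep
    exact Loc_of hc this
  have hy : (-(R • ev ℤ 0) : Fin 4 → ℤ) 1 = 0 := by
    rw [Pi.neg_apply, smul_ev, if_neg (by decide)]; simp
  have d0 : DependsOn Φ (hs 1 ((0 : ℕ) : ℤ)) := dep_mono hdep fun l hl => by
    have : (l.1 + ev ℤ l.2) 1 ≤ 0 := hl.2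
    show (l.1 + ev ℤ l.2) 1 ≤ ((0 : ℕ) : ℤ)
    simpa using this
  have d1 : DependsOn Φ (hs 1 ((1 : ℕ) : ℤ)) := dep_mono d0 fun l hl => by
    have : (l.1 + ev ℤ l.2) 1 ≤ ((0 : ℕ) : ℤ) := hl
    show (l.1 + ev ℤ l.2) 1 ≤ ((1 : ℕ) : ℤ)
    push_cast at this ⊢
    linarith
  have d0' : DependsOn Φ (hs 1 0) := by simpa using d0
  set v : ℕ → ℝ := vv Λ A A (-(R • ev ℤ 0)) Φ with hv
  have v0 : v 0 = 1 := by
    rw [hv]
    unfold vv
    rw [mul_zero]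
    exact e0
  have v1 : 1 / 4 ≤ v 1 := by
    have r := (hR G σ N π hπ β Λ hΛ (Fin 1) (Fin 1) A A hA hA (-(R • ev ℤ 0)) hy 0 1 Φ Φ hl hl d0
      d1).1
    rw [zero_add, mul_zero, e0, one_mul] at r
    have a1 : (1 / 2 : ℝ) ≤ ‖Λ (ff A A (-(R • ev ℤ 0)) 1 Φ Φ)‖ :=
      e1.trans (Complex.re_le_norm _)
    have a2 : (1 / 2 : ℝ) ^ 2 ≤ ‖Λ (ff A A (-(R • ev ℤ 0)) 1 Φ Φ)‖ ^ 2 :=
      pow_le_pow_left₀ (by norm_num) a1 2
    have a3 : v 1 = (Λ (ff A A (-(R • ev ℤ 0)) (2 * 1) Φ Φ)).re := rfl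
    rw [a3]
    have a4 : (1 / 2 : ℝ) ^ 2 = 1 / 4 := by norm_num
    rw [a4] at a2
    exact a2.trans r
  obtain ⟨b1, b2, -⟩ := large (k := 0) hR hπ hΛ hA hA hy hl d0' (q := 1 / 8) (by norm_num)
    (by simp) (show 0 < v 0 by rw [v0]; norm_num)
    (show 1 / 8 * v 0 < v (0 + 1) by rw [v0, zero_add]; linarith) (S + 1).toNat
  rw [zero_add] at b1 b2
  refine ⟨Φ, S + 1, (S + 1).toNat, hc, ?_, by omega, ?_, ?_⟩
  · refine dep_mono hdep ?_
    rintro l ⟨⟨l1, l2⟩, -⟩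
    refine ⟨l1, ?_⟩
    simpa using l2
  · unfold vw
    rw [dp_id]
    exact b1
  · unfold vw
    rw [dp_id]
    exact b2

theorem main (h1 : S_ONE) (h2 : S_STEPR) (h3 : S_UNI) (hR : S_RPF) : S_POT := by
  intro G _ _ _ _ _ _ _ _ σ _ _ N π hπ hπi β hβ q d hq hd ψ A hA hψ t
  refine h3 G σ N π hπ β q d hq hd (1 / 10000) (Fin 1) A hA (t + 1) t (1 / 8) (by norm_num)
    (Nat.le_succ t) fun Λ hΛ hP => ?_
  have key : ∀ u : ℕ, u ≤ t → RateM Λ A (t + 1) (1 / 8) u := by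
    intro u
    induction u with
    | zero => exact fun _ => rate0 h1 hR hπ hΛ hq hd hP hA hψ (by omega)
    | succ u ih =>
      intro hu
      exact h2 G σ N π hπ hπi β hβ Λ hΛ (Fin 1) A hA (t + 1) u (1 / 8) (by norm_num) (by omega)
        (ih (by omega))
  exact key t le_rfl

end Pool.Agent.N615.ZS_POT
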